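import Pool.Agent.TH703.Cone.Stm

set_option autoImplicit false

/-! # Fubini for the body `Om b ε` -/

namespace Pool.Agent.N271.Cone

open MeasureTheory Set Metric Pool.Agent.TH703.Cone
open scoped ENNReal

/-- Fubini in the ambient space -/
theorem lint_W {b : ℕ} (f : W b → ℝ≥0∞) (hf : Measurable f) :
    ∫⁻ z, f z = ∫⁻ x : ℂ, ∫⁻ y : B b, f (WithLp.toLp 2 (x, y)) := by
  have h := (WithLp.volume_preserving_toLp ℂ (B b)).lintegral_comp hf
  rw [← h]
  have hm : Measurable (fun p : ℂ × B b => f (WithLp.toLp 2 p)) :=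
    hf.comp (WithLp.measurable_toLp 2 _)
  exact lintegral_prod _ hm.aemeasurable

theorem isOpen_Om (b : ℕ) (ε : ℝ) : IsOpen (Om b ε) := by
  unfold Om
  have h1 : Continuous fun z : W b => ‖z.fst‖ + ‖z.snd‖ / ε := by fun_prop
  exact isOpen_lt h1 continuous_const

theorem fib_Om {b : ℕ} {ε : ℝ} (hε : 0 < ε) (x : ℂ) :
    fib (Om b ε) x = ball (0 : B b) ((1 - ‖x‖) * ε) := by
  ext y
  simp only [fib, Om, mem_ofPred_eq, mem_ball, dist_zero_right]
  change ‖x‖ + ‖y‖ / ε < 1 ↔ ‖y‖ < (1 - ‖x‖) * ε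
  rw [← div_lt_iff₀ hε]
  constructor <;> intro h <;> linarith

theorem vb_pos {b : ℕ} {ε : ℝ} (hε : 0 < ε) : 0 < vb b ε :=
  ENNReal.toReal_pos (measure_ball_pos volume 0 hε).ne' measure_ball_lt_top.ne

theorem ofReal_vb {b : ℕ} (ε : ℝ) : ENNReal.ofReal (vb b ε) = volume (ball (0 : B b) ε) :=
  ENNReal.ofReal_toReal measure_ball_lt_top.ne

theorem vol_fib_Om {b : ℕ} {ε : ℝ} (hε : 0 < ε) (x : ℂ) :
    volume (fib (Om b ε) x) = ENNReal.ofReal (vb b ε) *
      (ball (0 : ℂ) 1).indicator (fun x => ENNReal.ofReal ((1 - ‖x‖) ^ b)) x := by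
  rw [fib_Om hε, ofReal_vb]
  by_cases hx : x ∈ ball (0 : ℂ) 1
  · rw [indicator_of_mem hx]
    rw [mem_ball, dist_zero_right] at hx
    have h1 : 0 < 1 - ‖x‖ := by linarith
    rw [Measure.addHaar_ball_mul_of_pos volume (0 : B b) h1 ε, finrank_euclideanSpace_fin, mul_comm]
  · rw [indicator_of_notMem hx]
    rw [mem_ball, dist_zero_right, not_lt] at hx
    have h1 : (1 - ‖x‖) * ε ≤ 0 := mul_nonpos_of_nonpos_of_nonneg (by linarith) hε.le
    rw [ball_eq_empty.2 h1]
    simp

theorem measurableSet_fib {b : ℕ} {A : Set (W b)} (hA : MeasurableSet A) (x : ℂ) :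
    MeasurableSet (fib A x) := by
  have hm : Measurable (fun y : B b => (WithLp.toLp 2 (x, y) : W b)) :=
    (WithLp.measurable_toLp 2 _).comp (measurable_prodMk_left)
  exact hm hA

/-- Fubini for sets -/
theorem lint_set {b : ℕ} {A : Set (W b)} (hA : MeasurableSet A) (g : ℂ → ℝ≥0∞)
    (hg : Measurable g) :
    ∫⁻ z in A, g z.fst = ∫⁻ x : ℂ, g x * volume (fib A x) := by
  rw [← lintegral_indicator hA]
  have hm : Measurable fun z : W b => g z.fst := by
    have : Measurable fun z : W b => z.fst :=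
      (WithLp.continuous_fst 2 ℂ (B b)).measurable
    exact hg.comp this
  rw [lint_W _ (hm.indicator hA)]
  congr 1
  ext x
  have h1 : ∀ y : B b, A.indicator (fun z : W b => g z.fst) (WithLp.toLp 2 (x, y)) =
      (fib A x).indicator (fun _ => g x) y := by
    intro y
    by_cases hy : y ∈ fib A x
    · rw [indicator_of_mem hy, indicator_of_mem (show WithLp.toLp 2 (x, y) ∈ A from hy)]
      rfl
    · rw [indicator_of_notMem hy, indicator_of_notMem (show WithLp.toLp 2 (x, y) ∉ A from hy)]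
  simp_rw [h1]
  rw [lintegral_indicator (measurableSet_fib hA x), setLIntegral_const]

/-- **T7a** -/
theorem t7a : S_T7a := by
  intro b ε hb hε f hf
  rw [lint_set (isOpen_Om b ε).measurableSet f hf]
  simp_rw [vol_fib_Om hε]
  rw [← lintegral_indicator measurableSet_ball, ← lintegral_const_mul]
  · congr 1
    ext x
    by_cases hx : x ∈ ball (0 : ℂ) 1
    · rw [indicator_of_mem hx, indicator_of_mem hx]
      ring
    · rw [indicator_of_notMem hx, indicator_of_notMem hx]
      ring
  · refine Measurable.indicator ?_ measurableSet_ball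
    refine hf.mul ?_
    fun_prop

/-- polar coordinates for radial functions -/
theorem lint_radial (f : ℝ → ℝ≥0∞) (hf : Measurable f) :
    ∫⁻ x : ℂ, f ‖x‖ = ENNReal.ofReal (2 * Real.pi) * ∫⁻ ρ in Ioi (0 : ℝ), ENNReal.ofReal ρ * f ρ := by
  rw [← Complex.lintegral_comp_polarCoord_symm]
  rw [polarCoord_target, Measure.volume_eq_prod, setLIntegral_prod]
  · have h1 : ∀ p : ℝ × ℝ, p.1 ∈ Ioi (0 : ℝ) → ‖Complex.polarCoord.symm p‖ = p.1 := by
      intro p hp
      rw [Complex.norm_polarCoord_symm, abs_of_pos hp]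
    have h2 : ∀ x ∈ Ioi (0 : ℝ), ∫⁻ y in Ioo (-Real.pi) Real.pi,
        ENNReal.ofReal x • f ‖Complex.polarCoord.symm (x, y)‖ =
        ENNReal.ofReal (2 * Real.pi) * (ENNReal.ofReal x * f x) := by
      intro x hx
      have h3 : ∀ y : ℝ, ENNReal.ofReal x • f ‖Complex.polarCoord.symm (x, y)‖ =
          ENNReal.ofReal x * f x := by
        intro y
        rw [h1 (x, y) hx, smul_eq_mul]
      simp_rw [h3]
      rw [setLIntegral_const, Real.volume_Ioo, mul_comm]
      congr 2
      ring
    rw [setLIntegral_congr_fun measurableSet_Ioi h2, lintegral_const_mul]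
    exact (ENNReal.measurable_ofReal.comp measurable_id).mul hf
  · refine Measurable.aemeasurable ?_
    refine (ENNReal.measurable_ofReal.comp measurable_fst).smul ?_
    refine hf.comp ?_
    refine Measurable.norm ?_
    have : Continuous fun p : ℝ × ℝ => Complex.polarCoord.symm p := by
      have h : (fun p : ℝ × ℝ => Complex.polarCoord.symm p) = fun p : ℝ × ℝ =>
          (p.1 : ℂ) * (Real.cos p.2 + Real.sin p.2 * Complex.I) := by
        ext p
        rw [Complex.polarCoord_symm_apply]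
      rw [h]
      fun_prop
    exact this.measurable

end Pool.Agent.N271.Cone
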