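import Mathlib

set_option autoImplicit false

/-! # A `C¹` step function -/

namespace Pool.Agent.N271.Cone

open MeasureTheory Set

/-- the derivative of the step -/
noncomputable def kk (t : ℝ) : ℝ := 6 * max t 0 * max (1 - t) 0

/-- the step: `0` for `t ≤ 0`, `3 t² - 2 t³` on `[0, 1]`, `1` for `t ≥ 1` -/
noncomputable def sg (t : ℝ) : ℝ := ∫ u in (0 : ℝ)..t, kk u

theorem continuous_kk : Continuous kk := by unfold kk; fun_prop

theorem kk_nonneg (t : ℝ) : 0 ≤ kk t := by unfold kk; positivity

theorem kk_le (t : ℝ) : kk t ≤ 3 / 2 := by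
  unfold kk
  rcases le_total t 0 with h | h
  · rw [max_eq_right h]; norm_num
  · rcases le_total (1 - t) 0 with h1 | h1
    · rw [max_eq_right h1]; norm_num
    · rw [max_eq_left h, max_eq_left h1]
      nlinarith [sq_nonneg (2 * t - 1)]

theorem kk_eq_zero {t : ℝ} (h : t ≤ 0 ∨ 1 ≤ t) : kk t = 0 := by
  unfold kk
  rcases h with h | h
  · rw [max_eq_right h]; ring
  · rw [max_eq_right (show 1 - t ≤ 0 by linarith)]; ring

theorem hasDerivAt_sg (t : ℝ) : HasDerivAt sg (kk t) t :=
  intervalIntegral.integral_hasDerivAt_right (continuous_kk.intervalIntegrable _ _)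
    (continuous_kk.stronglyMeasurableAtFilter _ _) continuous_kk.continuousAt

theorem deriv_sg : deriv sg = kk := funext fun t => (hasDerivAt_sg t).deriv

theorem contDiff_sg : ContDiff ℝ 1 sg := by
  rw [contDiff_one_iff_deriv]
  refine ⟨fun t => (hasDerivAt_sg t).differentiableAt, ?_⟩
  rw [deriv_sg]
  exact continuous_kk

theorem sg_mono : Monotone sg :=
  monotone_of_deriv_nonneg (fun t => (hasDerivAt_sg t).differentiableAt) fun t => by
    rw [deriv_sg]; exact kk_nonneg t

theorem sg_zero : sg 0 = 0 := by simp [sg]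

theorem sg_one : sg 1 = 1 := by
  unfold sg
  have h : ∀ u ∈ Set.uIcc (0 : ℝ) 1, kk u = 6 * u - 6 * u ^ 2 := by
    intro u hu
    rw [Set.uIcc_of_le zero_le_one] at hu
    unfold kk
    rw [max_eq_left hu.1, max_eq_left (by linarith [hu.2])]
    ring
  rw [intervalIntegral.integral_congr h, intervalIntegral.integral_sub,
    intervalIntegral.integral_const_mul, intervalIntegral.integral_const_mul, integral_id,
    integral_pow]
  · norm_num
  · exact Continuous.intervalIntegrable (by fun_prop) _ _
  · exact Continuous.intervalIntegrable (by fun_prop) _ _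

theorem sg_of_nonpos {t : ℝ} (h : t ≤ 0) : sg t = 0 := by
  unfold sg
  have h1 : ∀ u ∈ Set.uIcc (0 : ℝ) t, kk u = 0 := by
    intro u hu
    rw [Set.uIcc_of_ge h] at hu
    exact kk_eq_zero (Or.inl hu.2)
  rw [intervalIntegral.integral_congr h1]
  simp

theorem sg_of_one_le {t : ℝ} (h : 1 ≤ t) : sg t = 1 := by
  have h0 : sg t = sg 1 + ∫ u in (1 : ℝ)..t, kk u := by
    unfold sg
    rw [intervalIntegral.integral_add_adjacent_intervals (continuous_kk.intervalIntegrable _ _)
      (continuous_kk.intervalIntegrable _ _)]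
  rw [h0, sg_one]
  have h1 : ∀ u ∈ Set.uIcc (1 : ℝ) t, kk u = 0 := by
    intro u hu
    rw [Set.uIcc_of_le h] at hu
    exact kk_eq_zero (Or.inr hu.1)
  rw [intervalIntegral.integral_congr h1]
  simp

theorem sg_nonneg (t : ℝ) : 0 ≤ sg t := by
  rcases le_total t 0 with h | h
  · rw [sg_of_nonpos h]
  · rw [← sg_zero]; exact sg_mono h

theorem sg_le_one (t : ℝ) : sg t ≤ 1 := by
  rcases le_total 1 t with h | h
  · rw [sg_of_one_le h]
  · rw [← sg_one]; exact sg_mono h

end Pool.Agent.N271.Cone
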