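import Pool.Agent.N271.Cone.Vol
import Pool.Agent.N271.Cone.Step
import Pool.Agent.TH703.Cone.Div

set_option autoImplicit false

/-! # T3: the relative perimeter of the cylinder `{|x| < r}` -/

namespace Pool.Agent.N271.Cone

open MeasureTheory Set Metric Filter Topology Pool.Agent.TH703.Cone
open scoped ENNReal InnerProductSpace

theorem isBounded_Om (b : ℕ) {ε : ℝ} (hε : 0 < ε) : Bornology.IsBounded (Om b ε) := by
  rw [isBounded_iff_forall_norm_le]
  refine ⟨1 + ε, fun z hz => ?_⟩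
  have h : ‖z.fst‖ + ‖z.snd‖ / ε < 1 := hz
  have h1 : 0 ≤ ‖z.snd‖ / ε := by positivity
  have h2 : ‖z.fst‖ < 1 := by linarith
  have h3 : ‖z.snd‖ / ε < 1 := by linarith [norm_nonneg z.fst]
  rw [div_lt_one hε] at h3
  have h4 := WithLp.prod_norm_sq_eq_of_L2 z
  have h5 : ‖z‖ ^ 2 ≤ (1 + ε) ^ 2 := by
    rw [h4]
    nlinarith [norm_nonneg z.fst, norm_nonneg z.snd]
  exact abs_le_of_sq_le_sq' h5 (by positivity) |>.2

theorem norm_fst_le {b : ℕ} (z : W b) : ‖z.fst‖ ≤ ‖z‖ := by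
  have h4 := WithLp.prod_norm_sq_eq_of_L2 z
  refine abs_le_of_sq_le_sq' ?_ (norm_nonneg z) |>.2
  rw [h4]
  nlinarith [norm_nonneg z.snd]

/-- the radial profile -/
noncomputable def HP (a D ρ : ℝ) : ℝ := kk ((ρ ^ 2 - a) / D) / D * (2 * ρ)

theorem continuous_HP (a D : ℝ) : Continuous (HP a D) := by
  unfold HP
  have := continuous_kk
  fun_prop

theorem lint_HP {r δ : ℝ} (hδ : 0 < δ) (hδr : δ < r) :
    ∫⁻ ρ in Ioi (0 : ℝ), ENNReal.ofReal (HP ((r - δ) ^ 2) (r ^ 2 - (r - δ) ^ 2) ρ) ≤ 1 := by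
  set a := (r - δ) ^ 2 with ha
  set D := r ^ 2 - a with hD
  have hDp : 0 < D := by rw [hD, ha]; nlinarith
  have hr : 0 < r := by linarith
  have h1 : ∫⁻ ρ in Ioi (0 : ℝ), ENNReal.ofReal (HP a D ρ) =
      ∫⁻ ρ in Ioc (0 : ℝ) r, ENNReal.ofReal (HP a D ρ) := by
    rw [← lintegral_indicator measurableSet_Ioi, ← lintegral_indicator measurableSet_Ioc]
    congr 1
    ext ρ
    by_cases h0 : 0 < ρ
    · rw [indicator_of_mem (show ρ ∈ Ioi (0 : ℝ) from h0)]
      by_cases h1 : ρ ≤ r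
      · rw [indicator_of_mem (show ρ ∈ Ioc 0 r from ⟨h0, h1⟩)]
      · rw [indicator_of_notMem (fun h => h1 h.2)]
        have : kk ((ρ ^ 2 - a) / D) = 0 := by
          refine kk_eq_zero (Or.inr ?_)
          rw [one_le_div hDp, hD]
          push Not at h1
          nlinarith
        unfold HP
        rw [this]; simp
    · rw [indicator_of_notMem (show ρ ∉ Ioi (0 : ℝ) from h0), indicator_of_notMem]
      intro h2
      exact h0 h2.1
  rw [h1, ← ofReal_integral_eq_lintegral_ofReal]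
  · rw [← intervalIntegral.integral_of_le hr.le]
    have h2 : ∀ ρ : ℝ, HasDerivAt (fun ρ => sg ((ρ ^ 2 - a) / D)) (HP a D ρ) ρ := by
      intro ρ
      have h3 : HasDerivAt (fun ρ : ℝ => (ρ ^ 2 - a) / D) (2 * ρ / D) ρ := by
        have := ((hasDerivAt_pow 2 ρ).sub_const a).div_const D
        simpa using this
      have h4 := (hasDerivAt_sg ((ρ ^ 2 - a) / D)).comp ρ h3
      refine h4.congr_deriv ?_
      unfold HP
      ring
    rw [intervalIntegral.integral_eq_sub_of_hasDerivAt (fun x _ => h2 x)]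
    · have h5 : (r ^ 2 - a) / D = 1 := div_self hDp.ne'
      have h6 : ((0 : ℝ) ^ 2 - a) / D ≤ 0 := by
        apply div_nonpos_of_nonpos_of_nonneg _ hDp.le
        rw [ha]; nlinarith [sq_nonneg (r - δ)]
      rw [h5, sg_one, sg_of_nonpos h6]
      simp
    · exact (continuous_HP a D).intervalIntegrable _ _
  · rw [← IntegrableOn, ← intervalIntegrable_iff_integrableOn_Ioc_of_le hr.le]
    exact (continuous_HP a D).intervalIntegrable _ _
  · filter_upwards [ae_restrict_mem measurableSet_Ioc] with ρ hρ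
    have h2 : 0 ≤ ρ := hρ.1.le
    have := kk_nonneg ((ρ ^ 2 - a) / D)
    unfold HP
    simp only [Pi.zero_apply]
    positivity

theorem int_HP {b : ℕ} {ε r δ : ℝ} (hb : 1 ≤ b) (hε : 0 < ε) (hr1 : r < 1) (hδ : 0 < δ)
    (hδr : δ < r) :
    ∫ z in Om b ε, HP ((r - δ) ^ 2) (r ^ 2 - (r - δ) ^ 2) ‖z.fst‖ ≤
      vb b ε * (2 * Real.pi * r * (1 - r + δ) ^ b) := by
  set a := (r - δ) ^ 2 with ha
  set D := r ^ 2 - a with hD
  have hDp : 0 < D := by rw [hD, ha]; nlinarith
  have hr : 0 < r := by linarith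
  have hnn : ∀ ρ : ℝ, 0 ≤ ρ → 0 ≤ HP a D ρ := by
    intro ρ hρ
    have := kk_nonneg ((ρ ^ 2 - a) / D)
    unfold HP
    positivity
  rw [integral_eq_lintegral_of_nonneg_ae (Eventually.of_forall fun z => hnn _ (norm_nonneg _))]
  swap
  · have : Continuous fun z : W b => HP a D ‖z.fst‖ :=
      (continuous_HP a D).comp (by fun_prop)
    exact this.aestronglyMeasurable
  apply ENNReal.toReal_le_of_le_ofReal
  · have := vb_pos (b := b) hε
    have h1 : 0 < 1 - r + δ := by linarith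
    positivity
  have hmH : Measurable fun ρ : ℝ => ENNReal.ofReal (HP a D ρ) :=
    (continuous_HP a D).measurable.ennreal_ofReal
  have h0 := t7a b ε hb hε (fun x => ENNReal.ofReal (HP a D ‖x‖)) (hmH.comp measurable_norm)
  rw [h0, ENNReal.ofReal_mul (vb_pos hε).le]
  refine mul_le_mul_right ?_ _
  have h1 : ∫⁻ x in ball (0 : ℂ) 1, ENNReal.ofReal (HP a D ‖x‖) * ENNReal.ofReal ((1 - ‖x‖) ^ b) ≤
      ∫⁻ x : ℂ, ENNReal.ofReal (r * (1 - r + δ) ^ b) *
        (fun ρ => ENNReal.ofReal (HP a D ρ) / ENNReal.ofReal ρ) ‖x‖ := by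
    rw [← lintegral_indicator measurableSet_ball]
    refine lintegral_mono fun x => ?_
    by_cases hx : x ∈ ball (0 : ℂ) 1
    · rw [indicator_of_mem hx]
      rw [mem_ball, dist_zero_right] at hx
      simp only
      by_cases h1 : kk ((‖x‖ ^ 2 - a) / D) = 0
      · unfold HP
        rw [h1]; simp
      · have h2 : 0 < (‖x‖ ^ 2 - a) / D ∧ (‖x‖ ^ 2 - a) / D < 1 := by
          constructor
          · by_contra h
            exact h1 (kk_eq_zero (Or.inl (not_lt.1 h)))
          · by_contra h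
            exact h1 (kk_eq_zero (Or.inr (not_lt.1 h)))
        have h3 : r - δ < ‖x‖ := by
          have h4 : 0 < ‖x‖ ^ 2 - a := by
            have := h2.1
            rw [div_pos_iff_of_pos_right hDp] at this
            exact this
          rw [ha] at h4
          nlinarith [norm_nonneg x]
        have h4 : ‖x‖ < r := by
          have h5 := h2.2
          rw [div_lt_one hDp, hD] at h5
          nlinarith [norm_nonneg x]
        have hx0 : 0 < ‖x‖ := by linarith
        rw [← ENNReal.ofReal_div_of_pos hx0, ← ENNReal.ofReal_mul, ← ENNReal.ofReal_mul]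
        · apply ENNReal.ofReal_le_ofReal
          have h6 : (1 - ‖x‖) ^ b ≤ (1 - r + δ) ^ b := by
            apply pow_le_pow_left₀ (by linarith) (by linarith)
          have h7 := hnn ‖x‖ hx0.le
          have h8 : 1 ≤ r / ‖x‖ := by rw [one_le_div hx0]; exact h4.le
          have h9 : 0 ≤ (1 - r + δ) ^ b := by
            have : 0 < 1 - r + δ := by linarith
            positivity
          calc HP a D ‖x‖ * (1 - ‖x‖) ^ b ≤ HP a D ‖x‖ * (1 - r + δ) ^ b := by gcongr
            _ = 1 * (HP a D ‖x‖ * (1 - r + δ) ^ b) := by ring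
            _ ≤ (r / ‖x‖) * (HP a D ‖x‖ * (1 - r + δ) ^ b) := by gcongr
            _ = r * (1 - r + δ) ^ b * (HP a D ‖x‖ / ‖x‖) := by ring
        · have : 0 < 1 - r + δ := by linarith
          positivity
        · exact hnn _ hx0.le
    · rw [indicator_of_notMem hx]
      exact zero_le
  refine h1.trans ?_
  rw [lintegral_const_mul, lint_radial (fun ρ => ENNReal.ofReal (HP a D ρ) / ENNReal.ofReal ρ)
    (hmH.div ENNReal.measurable_ofReal)]
  · have h2 : ∫⁻ ρ in Ioi (0 : ℝ), ENNReal.ofReal ρ * (ENNReal.ofReal (HP a D ρ) / ENNReal.ofReal ρ) ≤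
        1 := by
      refine le_trans (le_of_eq ?_) (lint_HP hδ hδr)
      refine setLIntegral_congr_fun measurableSet_Ioi fun ρ hρ => ?_
      have hρ' : (0 : ℝ) < ρ := hρ
      rw [ENNReal.mul_div_cancel]
      · simpa using hρ'
      · exact ENNReal.ofReal_ne_top
    calc ENNReal.ofReal (r * (1 - r + δ) ^ b) * (ENNReal.ofReal (2 * Real.pi) *
          ∫⁻ ρ in Ioi (0 : ℝ), ENNReal.ofReal ρ * (ENNReal.ofReal (HP a D ρ) / ENNReal.ofReal ρ))
        ≤ ENNReal.ofReal (r * (1 - r + δ) ^ b) * (ENNReal.ofReal (2 * Real.pi) * 1) := by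
          gcongr
      _ = ENNReal.ofReal (2 * Real.pi * r * (1 - r + δ) ^ b) := by
          rw [mul_one, ← ENNReal.ofReal_mul]
          · congr 1
            ring
          · have : 0 < 1 - r + δ := by linarith
            positivity
  · exact (hmH.div ENNReal.measurable_ofReal).comp measurable_norm

/-- the radial cutoff -/
noncomputable def GG {b : ℕ} (r δ : ℝ) (z : W b) : ℝ :=
  1 - sg ((‖z.fst‖ ^ 2 - (r - δ) ^ 2) / (r ^ 2 - (r - δ) ^ 2))

theorem hasFDerivAt_GG {b : ℕ} (r δ : ℝ) (z : W b) :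
    HasFDerivAt (GG (b := b) r δ) (-(kk ((‖z.fst‖ ^ 2 - (r - δ) ^ 2) / (r ^ 2 - (r - δ) ^ 2)) /
      (r ^ 2 - (r - δ) ^ 2)) • (2 • (innerSL ℝ z.fst).comp
        (WithLp.fstL 2 ℝ ℂ (B b)))) z := by
  have h1 : HasFDerivAt (fun z : W b => z.fst) (WithLp.fstL 2 ℝ ℂ (B b)) z :=
    (WithLp.fstL 2 ℝ ℂ (B b)).hasFDerivAt
  have h2 := h1.norm_sq
  have h3 : HasFDerivAt (fun z : W b => (‖z.fst‖ ^ 2 - (r - δ) ^ 2) / (r ^ 2 - (r - δ) ^ 2))
      ((r ^ 2 - (r - δ) ^ 2)⁻¹ • (2 • (innerSL ℝ z.fst).comp (WithLp.fstL 2 ℝ ℂ (B b)))) z := by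
    simp_rw [div_eq_inv_mul]
    exact (h2.sub_const _).const_mul _
  have h4 := ((hasDerivAt_sg _).comp_hasFDerivAt z h3).const_sub 1
  refine h4.congr_fderiv ?_
  ext v
  simp
  ring


theorem contDiff_GG {b : ℕ} (r δ : ℝ) : ContDiff ℝ 1 (GG (b := b) r δ) := by
  unfold GG
  refine contDiff_const.sub (contDiff_sg.comp ?_)
  refine ContDiff.div_const ?_ _
  refine ContDiff.sub ?_ contDiff_const
  exact ContDiff.norm_sq ℝ (WithLp.fstL 2 ℝ ℂ (B b)).contDiff

theorem GG_step {b : ℕ} {ε r δ : ℝ} (hb : 1 ≤ b) (hε : 0 < ε) (hr1 : r < 1) (hδ : 0 < δ)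
    (hδr : δ < r) {φ : W b → W b} (hφ : Tst (Om b ε) φ) :
    ∫ z, GG r δ z * dv φ z ≤ vb b ε * (2 * Real.pi * r * (1 - r + δ) ^ b) := by
  rw [Div.integral_mul_dv (contDiff_GG r δ) hφ.c1 hφ.cs, ← integral_neg]
  refine le_trans ?_ (int_HP hb hε hr1 hδ hδr)
  have hD : 0 < r ^ 2 - (r - δ) ^ 2 := by nlinarith
  have hzero : ∀ z, z ∉ Om b ε → φ z = 0 := by
    intro z hz
    by_contra h
    exact hz (hφ.sub (subset_tsupport φ h))
  have e : ∫ z, -(fderiv ℝ (GG (b := b) r δ) z) (φ z) =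
      ∫ z in Om b ε, -(fderiv ℝ (GG (b := b) r δ) z) (φ z) := by
    rw [← integral_indicator (isOpen_Om b ε).measurableSet]
    congr 1
    ext z
    by_cases hz : z ∈ Om b ε
    · rw [indicator_of_mem hz]
    · rw [indicator_of_notMem hz, hzero z hz]
      simp
  rw [e]
  have hcH : Continuous fun z : W b => HP ((r - δ) ^ 2) (r ^ 2 - (r - δ) ^ 2) ‖z.fst‖ :=
    (continuous_HP _ _).comp (by fun_prop)
  refine setIntegral_mono_on ?_ ?_ (isOpen_Om b ε).measurableSet ?_
  · refine Integrable.integrableOn ?_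
    apply Continuous.integrable_of_hasCompactSupport
    · exact (((contDiff_GG r δ).continuous_fderiv (by norm_num)).clm_apply hφ.c1.continuous).neg
    · refine hφ.cs.mono ?_
      intro x hx
      rw [Function.mem_support] at hx ⊢
      intro h
      rw [h, map_zero, neg_zero] at hx
      exact hx rfl
  · refine IntegrableOn.mono_set (hcH.continuousOn.integrableOn_compact
      ((isBounded_Om b hε).isCompact_closure)) subset_closure
  · intro z hz
    rw [(hasFDerivAt_GG r δ z).fderiv]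
    have h1 : ‖(φ z).fst‖ ≤ 1 := (norm_fst_le _).trans (hφ.le z)
    have h2 : |⟪z.fst, (φ z).fst⟫_ℝ| ≤ ‖z.fst‖ := by
      refine (abs_real_inner_le_norm _ _).trans ?_
      calc ‖z.fst‖ * ‖(φ z).fst‖ ≤ ‖z.fst‖ * 1 := by gcongr
        _ = _ := mul_one _
    have h3 := kk_nonneg ((‖z.fst‖ ^ 2 - (r - δ) ^ 2) / (r ^ 2 - (r - δ) ^ 2))
    have h4 : (-(kk ((‖z.fst‖ ^ 2 - (r - δ) ^ 2) / (r ^ 2 - (r - δ) ^ 2)) /
        (r ^ 2 - (r - δ) ^ 2)) • (2 • (innerSL ℝ z.fst).comp
        (WithLp.fstL 2 ℝ ℂ (B b)))) (φ z) = -(kk ((‖z.fst‖ ^ 2 - (r - δ) ^ 2) /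
        (r ^ 2 - (r - δ) ^ 2)) / (r ^ 2 - (r - δ) ^ 2) * (2 * ⟪z.fst, (φ z).fst⟫_ℝ)) := by
      simp
      left
      ring
    rw [h4, neg_neg]
    unfold HP
    have h5 : ⟪z.fst, (φ z).fst⟫_ℝ ≤ ‖z.fst‖ := (le_abs_self _).trans h2
    gcongr

/-- **T3** -/
theorem t3 : S_T3 := by
  intro b ε r hb hε hr0 hr1 φ hφ
  have hmr : MeasurableSet {z : W b | ‖z.fst‖ < r} := by
    have : Continuous fun z : W b => ‖z.fst‖ := by fun_prop
    exact (isOpen_lt this continuous_const).measurableSet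
  have e : ∫ z in {z | z ∈ Om b ε ∧ ‖z.fst‖ < r}, dv φ z =
      ∫ z, {z : W b | ‖z.fst‖ < r}.indicator (fun _ => (1 : ℝ)) z * dv φ z := by
    rw [← integral_indicator (show MeasurableSet {z | z ∈ Om b ε ∧ ‖z.fst‖ < r} from
      (isOpen_Om b ε).measurableSet.inter hmr)]
    congr 1
    ext z
    by_cases h1 : z ∈ {z : W b | ‖z.fst‖ < r}
    · rw [indicator_of_mem h1, one_mul]
      by_cases h2 : z ∈ Om b ε
      · rw [indicator_of_mem (show z ∈ {z | z ∈ Om b ε ∧ ‖z.fst‖ < r} from ⟨h2, h1⟩)]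
      · rw [indicator_of_notMem (fun h => h2 h.1), Div.dv_eq_zero_of_notMem fun h => h2 (hφ.sub h)]
    · rw [indicator_of_notMem h1, zero_mul, indicator_of_notMem (fun h => h1 h.2)]
  rw [e]
  set δ : ℕ → ℝ := fun n => r / ((n : ℝ) + 2) with hδ
  have hδ0 : ∀ n, 0 < δ n := fun n => by positivity
  have hδr : ∀ n, δ n < r := fun n => by
    simp only [hδ]
    rw [div_lt_iff₀ (by positivity)]
    nlinarith [(Nat.cast_nonneg n : (0 : ℝ) ≤ n)]
  have hδt : Tendsto δ atTop (𝓝 0) := by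
    have h1 : Tendsto (fun n : ℕ => (n : ℝ) + 2) atTop atTop :=
      tendsto_atTop_add_const_right _ _ tendsto_natCast_atTop_atTop
    exact h1.const_div_atTop r
  have hlim : Tendsto (fun n => ∫ z, GG (b := b) r (δ n) z * dv φ z) atTop
      (𝓝 (∫ z, {z : W b | ‖z.fst‖ < r}.indicator (fun _ => (1 : ℝ)) z * dv φ z)) := by
    refine tendsto_integral_of_dominated_convergence (fun z => ‖dv φ z‖) ?_ ?_ ?_ ?_
    · intro n
      exact ((contDiff_GG r (δ n)).continuous.mul (Div.continuous_dv hφ.c1)).aestronglyMeasurable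
    · exact (Div.integrable_dv hφ.c1 hφ.cs).norm
    · intro n
      refine Eventually.of_forall fun z => ?_
      rw [norm_mul]
      have h1 : ‖GG (b := b) r (δ n) z‖ ≤ 1 := by
        unfold GG
        rw [Real.norm_eq_abs, abs_le]
        constructor
        · linarith [sg_le_one ((‖z.fst‖ ^ 2 - (r - δ n) ^ 2) / (r ^ 2 - (r - δ n) ^ 2))]
        · linarith [sg_nonneg ((‖z.fst‖ ^ 2 - (r - δ n) ^ 2) / (r ^ 2 - (r - δ n) ^ 2))]
      calc _ ≤ 1 * ‖dv φ z‖ := by gcongr
        _ = _ := one_mul _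
    · refine Eventually.of_forall fun z => ?_
      refine Tendsto.mul_const _ ?_
      by_cases hz : ‖z.fst‖ < r
      · rw [indicator_of_mem (show z ∈ {z : W b | ‖z.fst‖ < r} from hz)]
        have h1 : ∀ᶠ n in atTop, δ n < r - ‖z.fst‖ :=
          hδt.eventually (gt_mem_nhds (by linarith))
        refine tendsto_const_nhds.congr' ?_
        filter_upwards [h1] with n hn
        unfold GG
        rw [sg_of_nonpos, sub_zero]
        apply div_nonpos_of_nonpos_of_nonneg
        · have := hδr n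
          nlinarith [norm_nonneg z.fst]
        · nlinarith [hδ0 n, hδr n]
      · rw [indicator_of_notMem (show z ∉ {z : W b | ‖z.fst‖ < r} from hz)]
        refine tendsto_const_nhds.congr fun n => ?_
        unfold GG
        rw [sg_of_one_le, sub_self]
        have hD : 0 < r ^ 2 - (r - δ n) ^ 2 := by nlinarith [hδ0 n, hδr n]
        rw [one_le_div hD]
        push Not at hz
        nlinarith [norm_nonneg z.fst]
  have hr2 : Tendsto (fun n => vb b ε * (2 * Real.pi * r * (1 - r + δ n) ^ b)) atTop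
      (𝓝 (vb b ε * (2 * Real.pi * r * (1 - r + 0) ^ b))) :=
    (((hδt.const_add _).pow b).const_mul _).const_mul _
  rw [add_zero] at hr2
  exact le_of_tendsto_of_tendsto' hlim hr2 fun n => GG_step hb hε hr1 (hδ0 n) (hδr n) hφ

end Pool.Agent.N271.Cone
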