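import Pool.Agent.N271.Cone.T4b

set_option autoImplicit false

/-! # T4: lower bound by the rotational field -/

namespace Pool.Agent.N271.Cone

open MeasureTheory Set Metric Filter Topology Pool.Agent.TH703.Cone
open scoped ENNReal InnerProductSpace

theorem kk_symm (t : ℝ) : kk (1 - t) = kk t := by
  unfold kk
  rw [sub_sub_cancel]; ring

theorem dens_eq {σ : ℝ} (y : ℂ) :
    kk ((y.im / (σ * ‖y‖) + 1) / 2) * (y.re / (σ * ‖y‖)) / ‖y‖ = kp σ y - kp σ (-y) := by
  unfold kp
  rw [norm_neg, Complex.neg_im, Complex.neg_re]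
  have h1 : kk ((-y.im / (σ * ‖y‖) + 1) / 2) = kk ((y.im / (σ * ‖y‖) + 1) / 2) := by
    rw [← kk_symm]
    congr 1
    ring
  rw [h1]
  have h2 : y.re = max y.re 0 - max (-y.re) 0 := by
    rcases le_total 0 y.re with h | h
    · rw [max_eq_left h, max_eq_right (by linarith)]; ring
    · rw [max_eq_right h, max_eq_left (by linarith)]; ring
  nth_rewrite 1 [h2]
  ring

theorem kp_le {σ r₀ : ℝ} (hσ : 0 < σ) (hr₀ : 0 < r₀) {y : ℂ} (hy : r₀ < ‖y‖) :
    kp σ y ≤ 3 / (2 * σ * r₀) := by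
  unfold kp
  have h1 := kk_le ((y.im / (σ * ‖y‖) + 1) / 2)
  have h0 := kk_nonneg ((y.im / (σ * ‖y‖) + 1) / 2)
  have hy0 : 0 < ‖y‖ := hr₀.trans hy
  have h2 : max y.re 0 ≤ ‖y‖ := max_le (Complex.re_le_norm y) (norm_nonneg y)
  have h3 : max y.re 0 / (σ * ‖y‖) ≤ 1 / σ := by
    rw [div_le_div_iff₀ (by positivity) hσ]
    nlinarith
  calc kk ((y.im / (σ * ‖y‖) + 1) / 2) * (max y.re 0 / (σ * ‖y‖)) / ‖y‖
      ≤ 3 / 2 * (1 / σ) / r₀ := by gcongr
    _ = _ := by field_simp

theorem kp_ne_zero {σ : ℝ} (hσ : 0 < σ) {y : ℂ} (h : kp σ y ≠ 0) :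
    0 < y.re ∧ |y.im| ≤ σ * ‖y‖ := by
  unfold kp at h
  have hy : ‖y‖ ≠ 0 := by
    intro h0
    rw [h0] at h
    simp at h
  have hy0 : 0 < ‖y‖ := lt_of_le_of_ne (norm_nonneg _) (Ne.symm hy)
  constructor
  · by_contra h1
    rw [max_eq_right (not_lt.1 h1)] at h
    simp at h
  · have h1 : kk ((y.im / (σ * ‖y‖) + 1) / 2) ≠ 0 := by
      intro h2
      rw [h2] at h
      simp at h
    have h2 : 0 < (y.im / (σ * ‖y‖) + 1) / 2 := by
      by_contra h3
      exact h1 (kk_eq_zero (Or.inl (not_lt.1 h3)))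
    have h3 : (y.im / (σ * ‖y‖) + 1) / 2 < 1 := by
      by_contra h3
      exact h1 (kk_eq_zero (Or.inr (not_lt.1 h3)))
    have h4 : |y.im / (σ * ‖y‖)| ≤ 1 := by rw [abs_le]; constructor <;> linarith
    rw [abs_div, abs_of_pos (by positivity : 0 < σ * ‖y‖), div_le_one (by positivity)] at h4
    exact h4

theorem Om_fin' (b : ℕ) {ε : ℝ} (hε : 0 < ε) : volume (Om b ε) ≠ ⊤ :=
  (isBounded_Om b hε).measure_lt_top.ne

/-- **T4** -/
theorem t4 : S_T4 := by
  intro b ε P A u σ r₀ R₁ hb hε hA hAs hP hu hσ hσ2 hr₀ hrR hR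
  have hOm := (isOpen_Om b ε).measurableSet
  have hOfin := Om_fin' b hε
  set C := 3 / (2 * σ * r₀) with hC
  have hC0 : 0 < C := by positivity
  have hmf : Measurable fun z : W b => z.fst := (WithLp.continuous_fst 2 ℂ (B b)).measurable
  have hmk1 : Measurable fun z : W b => kp σ (z.fst * u) :=
    (measurable_kp σ).comp (hmf.mul_const u)
  have hmk2 : Measurable fun z : W b => kp σ (-(z.fst * u)) :=
    (measurable_kp σ).comp (hmf.mul_const u).neg
  have hcη : ∀ n, Continuous (eta (b := b) ε r₀ R₁ n) := by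
    intro n
    have := contDiff_sg.continuous
    unfold eta
    fun_prop
  set W1 : Set (W b) := {z | z ∈ Om b ε \ A ∧ z.fst ∈ Wp u σ r₀ R₁} with hW1
  set W2 : Set (W b) := {z | z ∈ A ∧ -z.fst ∈ Wp u σ r₀ R₁} with hW2
  -- measurability of the wedge
  have hWp : MeasurableSet (Wp u σ r₀ R₁) := by
    unfold Wp
    have c1 : Continuous fun x : ℂ => (x * u).re :=
      Complex.continuous_re.comp (continuous_id.mul continuous_const)
    have c2 : Continuous fun x : ℂ => |(x * u).im| :=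
      (Complex.continuous_im.comp (continuous_id.mul continuous_const)).abs
    refine (measurableSet_le measurable_const measurable_norm).inter ?_
    refine (measurableSet_le measurable_norm measurable_const).inter ?_
    refine (measurableSet_lt measurable_const c1.measurable).inter ?_
    exact measurableSet_le c2.measurable (measurable_const.mul measurable_norm)
  have hW1m : MeasurableSet W1 := (hOm.diff hA).inter (hmf hWp)
  have hW2m : MeasurableSet W2 := hA.inter (hmf.neg hWp)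
  have hfin1 : volume W1 ≠ ⊤ := ne_top_of_le_ne_top hOfin (measure_mono fun z hz => hz.1.1)
  have hfin2 : volume W2 ≠ ⊤ := ne_top_of_le_ne_top hOfin (measure_mono fun z hz => hAs hz.1)
  -- pointwise bounds
  have hb1 : ∀ n (z : W b), eta ε r₀ R₁ n z * kp σ (z.fst * u) ≤
      {z : W b | z.fst ∈ Wp u σ r₀ R₁}.indicator (fun _ => C) z := by
    intro n z
    by_cases h0 : eta ε r₀ R₁ n z * kp σ (z.fst * u) = 0
    · rw [h0]
      exact indicator_nonneg (fun _ _ => hC0.le) z
    · have h1 : eta ε r₀ R₁ n z ≠ 0 := left_ne_zero_of_mul h0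
      have h2 : kp σ (z.fst * u) ≠ 0 := right_ne_zero_of_mul h0
      obtain ⟨e1, e2, e3⟩ := eta_ne_zero h1
      obtain ⟨p1, p2, p3⟩ := KS_props hε hR (show z ∈ KS b ε r₀ R₁ n from ⟨e1.le, e2.le, e3.le⟩)
      obtain ⟨q1, q2⟩ := kp_ne_zero hσ h2
      have hn : ‖z.fst * u‖ = ‖z.fst‖ := by rw [norm_mul, hu, mul_one]
      rw [hn] at q2
      rw [indicator_of_mem (show z ∈ {z : W b | z.fst ∈ Wp u σ r₀ R₁} from
        ⟨p1.le, p2.le, q1, q2⟩)]
      calc eta ε r₀ R₁ n z * kp σ (z.fst * u) ≤ 1 * kp σ (z.fst * u) := by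
            apply mul_le_mul_of_nonneg_right (eta_le_one _ _ _ _ _) (kp_nonneg hσ _)
        _ ≤ C := by
            rw [one_mul]
            exact kp_le hσ hr₀ (by rw [hn]; exact p1)
  have hb2 : ∀ n (z : W b), eta ε r₀ R₁ n z * kp σ (-(z.fst * u)) ≤
      {z : W b | -z.fst ∈ Wp u σ r₀ R₁}.indicator (fun _ => C) z := by
    intro n z
    by_cases h0 : eta ε r₀ R₁ n z * kp σ (-(z.fst * u)) = 0
    · rw [h0]
      exact indicator_nonneg (fun _ _ => hC0.le) z
    · have h1 : eta ε r₀ R₁ n z ≠ 0 := left_ne_zero_of_mul h0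
      have h2 : kp σ (-(z.fst * u)) ≠ 0 := right_ne_zero_of_mul h0
      obtain ⟨e1, e2, e3⟩ := eta_ne_zero h1
      obtain ⟨p1, p2, p3⟩ := KS_props hε hR (show z ∈ KS b ε r₀ R₁ n from ⟨e1.le, e2.le, e3.le⟩)
      obtain ⟨q1, q2⟩ := kp_ne_zero hσ h2
      have hn : ‖-(z.fst * u)‖ = ‖z.fst‖ := by rw [norm_neg, norm_mul, hu, mul_one]
      rw [hn] at q2
      rw [← neg_mul] at q1 q2
      rw [indicator_of_mem (show z ∈ {z : W b | -z.fst ∈ Wp u σ r₀ R₁} from
        ⟨by rw [norm_neg]; exact p1.le, by rw [norm_neg]; exact p2.le, q1,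
          by rw [norm_neg]; exact q2⟩)]
      calc eta ε r₀ R₁ n z * kp σ (-(z.fst * u)) ≤ 1 * kp σ (-(z.fst * u)) := by
            apply mul_le_mul_of_nonneg_right (eta_le_one _ _ _ _ _) (kp_nonneg hσ _)
        _ ≤ C := by
            rw [one_mul]
            exact kp_le hσ hr₀ (by rw [hn]; exact p1)
  have hn1 : ∀ n (z : W b), 0 ≤ eta ε r₀ R₁ n z * kp σ (z.fst * u) := fun n z =>
    mul_nonneg (eta_nonneg _ _ _ _ _) (kp_nonneg hσ _)
  have hn2 : ∀ n (z : W b), 0 ≤ eta ε r₀ R₁ n z * kp σ (-(z.fst * u)) := fun n z =>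
    mul_nonneg (eta_nonneg _ _ _ _ _) (kp_nonneg hσ _)
  have hindC : ∀ (T : Set (W b)) (z : W b), T.indicator (fun _ => C) z ≤ C := fun T z =>
    indicator_le_self' (fun _ _ => hC0.le) z
  have hi1 : ∀ n (T : Set (W b)), T ⊆ Om b ε →
      IntegrableOn (fun z => eta ε r₀ R₁ n z * kp σ (z.fst * u)) T := by
    intro n T hT
    refine Measure.integrableOn_of_bounded (M := C) (ne_top_of_le_ne_top hOfin (measure_mono hT))
      (((hcη n).measurable.mul hmk1).aestronglyMeasurable) (Eventually.of_forall fun z => ?_)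
    rw [Real.norm_of_nonneg (hn1 n z)]
    exact (hb1 n z).trans (hindC _ z)
  have hi2 : ∀ n (T : Set (W b)), T ⊆ Om b ε →
      IntegrableOn (fun z => eta ε r₀ R₁ n z * kp σ (-(z.fst * u))) T := by
    intro n T hT
    refine Measure.integrableOn_of_bounded (M := C) (ne_top_of_le_ne_top hOfin (measure_mono hT))
      (((hcη n).measurable.mul hmk2).aestronglyMeasurable) (Eventually.of_forall fun z => ?_)
    rw [Real.norm_of_nonneg (hn2 n z)]
    exact (hb2 n z).trans (hindC _ z)
  -- the inequality for every `n`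
  have hstep : ∀ n, ∫ z in Om b ε, eta ε r₀ R₁ n z * kp σ (z.fst * u) ≤
      P + C * (volume.real W1 + volume.real W2) := by
    intro n
    have h1 := hP _ (tst_PF (b := b) u hσ hε hr₀ hR n)
    have h2 : ∀ z, dv (PF (b := b) u σ ε r₀ R₁ n) z = eta ε r₀ R₁ n z * kp σ (z.fst * u) -
        eta ε r₀ R₁ n z * kp σ (-(z.fst * u)) := by
      intro z
      rw [dv_PF u hσ hr₀ n z, ← mul_sub, ← dens_eq, norm_mul, hu, mul_one]
    simp_rw [h2] at h1
    rw [integral_sub (hi1 n A hAs) (hi2 n A hAs)] at h1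
    have h3 : ∫ z in Om b ε, eta ε r₀ R₁ n z * kp σ (z.fst * u) =
        (∫ z in A, eta ε r₀ R₁ n z * kp σ (z.fst * u)) +
          ∫ z in Om b ε \ A, eta ε r₀ R₁ n z * kp σ (z.fst * u) := by
      rw [← setIntegral_union disjoint_sdiff_right (hOm.diff hA) (hi1 n A hAs)
        (hi1 n _ sdiff_subset), union_sdiff_cancel hAs]
    have h4 : ∫ z in Om b ε \ A, eta ε r₀ R₁ n z * kp σ (z.fst * u) ≤ C * volume.real W1 := by
      calc ∫ z in Om b ε \ A, eta ε r₀ R₁ n z * kp σ (z.fst * u)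
          ≤ ∫ z in Om b ε \ A, {z : W b | z.fst ∈ Wp u σ r₀ R₁}.indicator (fun _ => C) z := by
            refine setIntegral_mono (hi1 n _ sdiff_subset) ?_ (hb1 n)
            refine IntegrableOn.indicator ?_ (hmf hWp)
            exact integrableOn_const (ne_top_of_le_ne_top hOfin (measure_mono sdiff_subset))
        _ = C * volume.real W1 := by
            rw [setIntegral_indicator (show MeasurableSet {z : W b | z.fst ∈ Wp u σ r₀ R₁}
              from hmf hWp), setIntegral_const, smul_eq_mul, mul_comm]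
            rfl
    have h5 : ∫ z in A, eta ε r₀ R₁ n z * kp σ (-(z.fst * u)) ≤ C * volume.real W2 := by
      calc ∫ z in A, eta ε r₀ R₁ n z * kp σ (-(z.fst * u))
          ≤ ∫ z in A, {z : W b | -z.fst ∈ Wp u σ r₀ R₁}.indicator (fun _ => C) z := by
            refine setIntegral_mono (hi2 n _ hAs) ?_ (hb2 n)
            refine IntegrableOn.indicator ?_ (hmf.neg hWp)
            exact integrableOn_const (ne_top_of_le_ne_top hOfin (measure_mono hAs))
        _ = C * volume.real W2 := by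
            rw [setIntegral_indicator (show MeasurableSet {z : W b | -z.fst ∈ Wp u σ r₀ R₁}
              from hmf.neg hWp), setIntegral_const, smul_eq_mul, mul_comm]
            rfl
    rw [h3]
    linarith
  -- the limit
  have hlim : Tendsto (fun n => ∫ z in Om b ε, eta ε r₀ R₁ n z * kp σ (z.fst * u)) atTop
      (𝓝 (∫ z in Om b ε, (Ioo r₀ R₁).indicator (fun _ => (1 : ℝ)) ‖z.fst‖ *
        kp σ (z.fst * u))) := by
    refine tendsto_integral_of_dominated_convergence (fun _ => C) ?_ ?_ ?_ ?_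
    · intro n
      exact ((hcη n).measurable.mul hmk1).aestronglyMeasurable
    · exact integrableOn_const hOfin
    · intro n
      refine Eventually.of_forall fun z => ?_
      rw [Real.norm_of_nonneg (hn1 n z)]
      exact (hb1 n z).trans (hindC _ z)
    · filter_upwards [ae_restrict_mem hOm] with z hz
      refine Tendsto.mul_const _ ?_
      by_cases hx : ‖z.fst‖ ∈ Ioo r₀ R₁
      · rw [indicator_of_mem hx]
        have hev : ∀ s : ℝ, 0 < s → ∀ᶠ n : ℕ in atTop, 2 ≤ (n : ℝ) * s := by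
          intro s hs
          have : Tendsto (fun n : ℕ => (n : ℝ) * s) atTop atTop :=
            tendsto_natCast_atTop_atTop.atTop_mul_const hs
          exact this.eventually_ge_atTop 2
        have hgap : 0 < (1 - ‖z.fst‖) ^ 2 - ‖z.snd‖ ^ 2 / ε ^ 2 := by
          have h1 : ‖z.fst‖ + ‖z.snd‖ / ε < 1 := hz
          have h2 : ‖z.snd‖ / ε < 1 - ‖z.fst‖ := by linarith
          have h3 : (‖z.snd‖ / ε) ^ 2 < (1 - ‖z.fst‖) ^ 2 := by
            apply pow_lt_pow_left₀ h2 (by positivity) two_ne_zero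
          rw [div_pow] at h3
          linarith
        refine tendsto_const_nhds.congr' ?_
        filter_upwards [hev _ (sub_pos.2 hx.1), hev _ (sub_pos.2 hx.2), hev _ hgap] with n a1 a2 a3
        unfold eta
        rw [sg_of_one_le (by linarith), sg_of_one_le (by linarith), sg_of_one_le (by linarith)]
        norm_num
      · rw [indicator_of_notMem hx]
        refine tendsto_const_nhds.congr fun n => ?_
        by_contra h
        obtain ⟨e1, e2, e3⟩ := eta_ne_zero (Ne.symm h)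
        obtain ⟨p1, p2, p3⟩ := KS_props hε hR (show z ∈ KS b ε r₀ R₁ n from ⟨e1.le, e2.le, e3.le⟩)
        exact hx ⟨p1, p2⟩
  have hfinal := le_of_tendsto' hlim hstep
  refine le_trans (le_of_eq ?_) hfinal
  rw [integral_eq_lintegral_of_nonneg_ae]
  · have h1 := lint_kp_Om (b := b) (ε := ε) hu hb hε hσ hσ2 hr₀ hrR hR
    have h2 : ∀ z : W b, ENNReal.ofReal ((Ioo r₀ R₁).indicator (fun _ => (1 : ℝ)) ‖z.fst‖ *
        kp σ (z.fst * u)) = (Ioo r₀ R₁).indicator (fun _ => (1 : ℝ≥0∞)) ‖z.fst‖ *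
        ENNReal.ofReal (kp σ (z.fst * u)) := by
      intro z
      by_cases hx : ‖z.fst‖ ∈ Ioo r₀ R₁
      · rw [indicator_of_mem hx, indicator_of_mem hx, one_mul, one_mul]
      · rw [indicator_of_notMem hx, indicator_of_notMem hx, zero_mul, zero_mul, ENNReal.ofReal_zero]
    simp_rw [h2]
    rw [h1, ENNReal.toReal_ofReal]
    have h3 : 0 ≤ ∫ ρ in r₀..R₁, (1 - ρ) ^ b := by
      refine intervalIntegral.integral_nonneg hrR.le fun x hx => ?_
      have : 0 ≤ 1 - x := by linarith [hx.2]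
      positivity
    have := vb_pos (b := b) hε
    positivity
  · refine Eventually.of_forall fun z => ?_
    exact mul_nonneg (indicator_nonneg (fun _ _ => zero_le_one) _) (kp_nonneg hσ _)
  · refine (Measurable.mul ?_ hmk1).aestronglyMeasurable
    exact (measurable_const.indicator measurableSet_Ioo).comp hmf.norm

end Pool.Agent.N271.Cone
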