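import Pool.Agent.N271.Cone.T3
import Pool.Agent.TH703.Cone.Trans

set_option autoImplicit false

/-! # T5: the fibres are almost full or almost empty -/

namespace Pool.Agent.N271.Cone

open MeasureTheory Set Metric Filter Topology Pool.Agent.TH703.Cone
open scoped ENNReal

theorem convex_Om (b : ℕ) {ε : ℝ} (hε : 0 < ε) : Convex ℝ (Om b ε) := by
  have h1 : ConvexOn ℝ univ fun z : W b => ‖z.fst‖ + ‖z.snd‖ / ε := by
    have a1 : ConvexOn ℝ univ fun z : W b => ‖z.fst‖ :=
      (convexOn_univ_norm).comp_linearMap (WithLp.fstL 2 ℝ ℂ (B b)).toLinearMap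
    have a2 : ConvexOn ℝ univ fun z : W b => ‖z.snd‖ :=
      (convexOn_univ_norm).comp_linearMap (WithLp.sndL 2 ℝ ℂ (B b)).toLinearMap
    have a3 := a2.smul (c := ε⁻¹) (by positivity)
    refine (a1.add a3).congr fun z _ => ?_
    simp only [Pi.add_apply, smul_eq_mul]
    rw [div_eq_inv_mul]
  have h2 := h1.convex_lt 1
  have h3 : Om b ε = {x ∈ univ | ‖x.fst‖ + ‖x.snd‖ / ε < 1} := by
    ext z; simp [Om]
  rw [h3]
  exact h2

/-- the embedding of the fibre -/
def inj {b : ℕ} (h : B b) : W b := WithLp.toLp 2 (0, h)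

theorem norm_inj {b : ℕ} (h : B b) : ‖inj h‖ = ‖h‖ := by
  have h4 : ‖inj h‖ ^ 2 = ‖(0 : ℂ)‖ ^ 2 + ‖h‖ ^ 2 := WithLp.prod_norm_sq_eq_of_L2 (inj h)
  rw [norm_zero, zero_pow two_ne_zero, zero_add] at h4
  exact (pow_left_inj₀ (norm_nonneg _) (norm_nonneg _) two_ne_zero).1 h4

theorem measurable_inj {b : ℕ} : Measurable (inj (b := b)) :=
  (WithLp.measurable_toLp 2 _).comp (measurable_prodMk_left)

/-- **T5** -/
theorem t5 : S_T5 := by
  intro b ε P A hb hε hA hAs hP hPLE
  set Ω := Om b ε with hΩ
  have hΩm : MeasurableSet Ω := (isOpen_Om b ε).measurableSet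
  have hC : MeasurableSet (Ω \ A) := hΩm.diff hA
  have hT1 := t1 (W b)
  let g : B b → W b → ℝ≥0∞ := fun h z => (A.indicator (fun _ => (1 : ℝ≥0∞)) z) *
    ((Ω \ A).indicator (fun _ => (1 : ℝ≥0∞)) (z + inj h))
  have hgm : Measurable (Function.uncurry g) := by
    have m1 : Measurable fun p : B b × W b => A.indicator (fun _ => (1 : ℝ≥0∞)) p.2 :=
      (measurable_const.indicator hA).comp measurable_snd
    have m2 : Measurable fun p : B b × W b =>
        (Ω \ A).indicator (fun _ => (1 : ℝ≥0∞)) (p.2 + inj p.1) :=
      (measurable_const.indicator hC).comp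
        (measurable_snd.add (measurable_inj.comp measurable_fst))
    exact m1.mul m2
  -- the left side
  have hfibm : Measurable fun x : ℂ => volume (fib (Ω \ A) x) := by
    have : MeasurableSet {p : ℂ × B b | (WithLp.toLp 2 p : W b) ∈ Ω \ A} :=
      (WithLp.measurable_toLp 2 _) hC
    exact measurable_measure_prodMk_left (ν := (volume : Measure (B b))) this
  have e1 : ∫⁻ x : ℂ, volume (fib A x) * volume (fib (Ω \ A) x) = ∫⁻ z, ∫⁻ h, g h z := by
    have h1 : ∀ z, ∫⁻ h, g h z = A.indicator (fun z => volume (fib (Ω \ A) z.fst)) z := by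
      intro z
      by_cases hz : z ∈ A
      · rw [indicator_of_mem hz]
        have h2 : ∀ h, g h z = (fib (Ω \ A) z.fst).indicator (fun _ => (1 : ℝ≥0∞)) (z.snd + h) := by
          intro h
          simp only [g]
          rw [indicator_of_mem hz, one_mul]
          have h3 : z + inj h = WithLp.toLp 2 (z.fst, z.snd + h) := by
            apply (WithLp.equiv 2 (ℂ × B b)).injective
            ext1
            · change z.fst + 0 = z.fst
              rw [add_zero]
            · rfl
          by_cases h4 : z.snd + h ∈ fib (Ω \ A) z.fst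
          · rw [indicator_of_mem h4, indicator_of_mem]
            rw [h3]; exact h4
          · rw [indicator_of_notMem h4, indicator_of_notMem]
            rw [h3]; exact h4
        simp_rw [h2]
        rw [lintegral_add_left_eq_self
          (fun y => (fib (Ω \ A) z.fst).indicator (fun _ => (1 : ℝ≥0∞)) y) z.snd,
          lintegral_indicator (measurableSet_fib hC _)]
        simp
      · rw [indicator_of_notMem hz]
        simp only [g]
        simp_rw [indicator_of_notMem hz]
        simp
    simp_rw [h1]
    rw [lintegral_indicator hA, lint_set hA (fun x => volume (fib (Ω \ A) x)) hfibm]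
    congr 1
    ext x
    rw [mul_comm]
  rw [e1, ← lintegral_lintegral_swap hgm.aemeasurable]
  have e2 : ∀ h : B b, ∫⁻ z, g h z ≤ (ball (0 : B b) (2 * ε)).indicator
      (fun _ => ENNReal.ofReal (2 * ε * P)) h := by
    intro h
    by_cases hh : h ∈ ball (0 : B b) (2 * ε)
    · rw [indicator_of_mem hh]
      rw [mem_ball, dist_zero_right] at hh
      have hS : MeasurableSet {z | z ∈ A ∧ z + inj h ∈ Ω \ A} :=
        hA.inter ((measurable_id.add_const _) hC)
      have h1 : ∫⁻ z, g h z = volume {z | z ∈ A ∧ z + inj h ∈ Ω \ A} := by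
        have h2 : ∀ z, g h z = {z | z ∈ A ∧ z + inj h ∈ Ω \ A}.indicator (fun _ => (1 : ℝ≥0∞)) z := by
          intro z
          simp only [g]
          by_cases h3 : z ∈ A
          · rw [indicator_of_mem h3, one_mul]
            by_cases h4 : z + inj h ∈ Ω \ A
            · rw [indicator_of_mem h4,
                indicator_of_mem (show z ∈ {z | z ∈ A ∧ z + inj h ∈ Ω \ A} from ⟨h3, h4⟩)]
            · rw [indicator_of_notMem h4, indicator_of_notMem (fun h5 => h4 h5.2)]
          · rw [indicator_of_notMem h3, zero_mul, indicator_of_notMem (fun h5 => h3 h5.1)]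
        simp_rw [h2]
        rw [lintegral_indicator hS]
        simp
      rw [h1]
      refine (hT1 Ω A P (inj h) (isOpen_Om b ε) (convex_Om b hε) (isBounded_Om b hε) hA hAs hP
        hPLE).trans ?_
      rw [norm_inj]
      apply ENNReal.ofReal_le_ofReal
      gcongr
    · rw [indicator_of_notMem hh]
      rw [mem_ball, dist_zero_right, not_lt] at hh
      have h1 : ∀ z, g h z = 0 := by
        intro z
        simp only [g]
        by_cases h3 : z ∈ A
        · rw [indicator_of_notMem (s := Ω \ A), mul_zero]
          intro h4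
          have h5 : ‖z.fst‖ + ‖z.snd‖ / ε < 1 := hAs h3
          have h6 : ‖(z + inj h).fst‖ + ‖(z + inj h).snd‖ / ε < 1 := h4.1
          have h7 : (z + inj h).snd = z.snd + h := rfl
          rw [h7] at h6
          have h8 : ‖z.snd‖ / ε < 1 := by linarith [norm_nonneg z.fst]
          have h9 : ‖z.snd + h‖ / ε < 1 := by linarith [norm_nonneg (z + inj h).fst]
          rw [div_lt_one hε] at h8 h9
          have h10 : ‖h‖ ≤ ‖z.snd + h‖ + ‖z.snd‖ := by
            have := norm_sub_le (z.snd + h) z.snd
            rwa [add_sub_cancel_left] at this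
          linarith
        · rw [indicator_of_notMem h3, zero_mul]
      simp_rw [h1]
      simp
  refine (lintegral_mono e2).trans ?_
  rw [lintegral_indicator measurableSet_ball, setLIntegral_const,
    Measure.addHaar_ball_mul_of_pos volume (0 : B b) (by norm_num : (0 : ℝ) < 2) ε,
    finrank_euclideanSpace_fin, ← ofReal_vb, ← ENNReal.ofReal_mul (by positivity),
    ← ENNReal.ofReal_mul (by positivity)]
  apply ENNReal.ofReal_le_ofReal
  apply le_of_eq
  ring

end Pool.Agent.N271.Cone
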