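import Pool.Agent.N271.Cone.T6d

set_option autoImplicit false

/-! # T6, general `ε` -/

namespace Pool.Agent.N271.Cone

open MeasureTheory Set Metric Filter Topology Pool.Agent.TH703.Cone
open scoped ENNReal InnerProductSpace

/-- scaling of the fibres -/
noncomputable def sca {b : ℕ} (ε : ℝ) (z : W b) : W b := WithLp.toLp 2 (z.fst, ε • z.snd)

theorem continuous_sca {b : ℕ} (ε : ℝ) : Continuous (sca (b := b) ε) := by
  unfold sca
  have h1 : Continuous fun z : W b => (z.fst, ε • z.snd) := by fun_prop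
  exact (WithLp.prod_continuous_toLp 2 ℂ (B b)).comp h1

theorem sca_mem_Om {b : ℕ} {ε : ℝ} (hε : 0 < ε) (z : W b) : sca ε z ∈ Om b ε ↔ z ∈ Om b 1 := by
  change ‖z.fst‖ + ‖ε • z.snd‖ / ε < 1 ↔ ‖z.fst‖ + ‖z.snd‖ / 1 < 1
  rw [norm_smul, Real.norm_of_nonneg hε.le, mul_div_cancel_left₀ _ hε.ne', div_one]

theorem vol_fib_sca {b : ℕ} {ε : ℝ} (hε : 0 < ε) (A : Set (W b)) (x : ℂ) :
    volume (fib (sca ε ⁻¹' A) x) = ENNReal.ofReal (ε ^ b)⁻¹ * volume (fib A x) := by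
  have h1 : fib (sca ε ⁻¹' A) x = (fun y : B b => ε • y) ⁻¹' (fib A x) := rfl
  rw [h1]
  have h2 := Measure.addHaar_preimage_smul (volume : Measure (B b)) hε.ne' (fib A x)
  rw [finrank_euclideanSpace_fin, abs_of_pos (by positivity)] at h2
  exact h2

theorem vol_sca {b : ℕ} {ε : ℝ} (hε : 0 < ε) {A : Set (W b)} (hA : MeasurableSet A) :
    volume (sca ε ⁻¹' A) = ENNReal.ofReal (ε ^ b)⁻¹ * volume A := by
  have hm : MeasurableSet (sca ε ⁻¹' A) := (continuous_sca ε).measurable hA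
  have h1 := lint_set hm (fun _ => (1 : ℝ≥0∞)) measurable_const
  have h2 := lint_set hA (fun _ => (1 : ℝ≥0∞)) measurable_const
  simp only [setLIntegral_const, one_mul] at h1 h2
  rw [h1, h2, ← lintegral_const_mul']
  · congr 1
    ext x
    exact vol_fib_sca hε A x
  · exact ENNReal.ofReal_ne_top

theorem vb_scale (b : ℕ) {ε : ℝ} (hε : 0 < ε) : vb b ε = ε ^ b * vb b 1 := by
  unfold vb Measure.real
  have h := Measure.addHaar_ball_mul_of_pos (volume : Measure (B b)) (0 : B b) hε 1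
  rw [mul_one, finrank_euclideanSpace_fin] at h
  rw [h, ENNReal.toReal_mul, ENNReal.toReal_ofReal (by positivity)]

/-- **T6** -/
theorem t6 (b : ℕ) (c K r₀ : ℝ) (hc0 : 0 < c) (hc1 : c ≤ 1) (hK : 2 ≤ K)
    (hbK : 100 * K ^ 2 / c ^ 2 ≤ b) (hr₀ : 0 < r₀) :
    ∃ σ η : ℝ, 0 < σ ∧ σ ≤ 1 / 2 ∧ 0 < η ∧ ∀ (ε : ℝ) (G : Set (W b)), 0 < ε →
      IsOpen G → (∀ z ∈ G, ∀ t : ℝ, 0 < t → t • z ∈ G) → (∀ z ∈ G, ∀ w ∈ G, z + w ∈ G) →
      ENNReal.ofReal c * volume (Om b ε) ≤ volume (Om b ε ∩ G) →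
      ∃ u : ℂ, ‖u‖ = 1 ∧ ∀ x ∈ Wp u σ r₀ ((K - 1) / b),
        ENNReal.ofReal (η * vb b ε) ≤ volume (fib (Om b ε ∩ G) x) := by
  have hbn : (0 : ℝ) ≤ b := Nat.cast_nonneg b
  refine ⟨c / (64 * (b + 1) * (b + 2)) / 4, (c / (64 * (b + 1) * (b + 2)) * r₀ / 2) ^ b,
    by positivity, ?_, by positivity, ?_⟩
  · rw [div_div, div_le_div_iff₀ (by positivity) (by norm_num)]
    have : (2 : ℝ) ≤ (b + 1) * (b + 2) := by nlinarith
    nlinarith
  intro ε G hε hGo hcone hadd hvol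
  have hG1o : IsOpen (sca ε ⁻¹' G) := hGo.preimage (continuous_sca ε)
  have hsm : ∀ (t : ℝ) (z : W b), sca ε (t • z) = t • sca ε z := by
    intro t z
    apply (WithLp.equiv 2 (ℂ × B b)).injective
    ext1
    · rfl
    · change ε • (t • z.snd) = t • (ε • z.snd)
      rw [smul_comm]
  have had : ∀ z w : W b, sca ε (z + w) = sca ε z + sca ε w := by
    intro z w
    apply (WithLp.equiv 2 (ℂ × B b)).injective
    ext1
    · rfl
    · change ε • (z.snd + w.snd) = ε • z.snd + ε • w.snd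
      rw [smul_add]
  have hpre : ∀ A : Set (W b), Om b 1 ∩ sca ε ⁻¹' A = sca ε ⁻¹' (Om b ε ∩ A) := by
    intro A
    ext z
    simp only [mem_inter_iff, mem_preimage]
    rw [sca_mem_Om hε]
  have hOmpre : Om b 1 = sca ε ⁻¹' (Om b ε) := by
    ext z
    rw [mem_preimage, sca_mem_Om hε]
  have hOm := (isOpen_Om b ε).measurableSet
  obtain ⟨u, hu, hx⟩ := t6_one b c K r₀ hc0 hc1 hK hbK hr₀ (sca ε ⁻¹' G) hG1o
    (fun z hz t ht => by
      rw [mem_preimage, hsm]; exact hcone _ hz t ht)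
    (fun z hz w hw => by
      rw [mem_preimage, had]; exact hadd _ hz _ hw) (by
      rw [hpre, vol_sca hε (hOm.inter hGo.measurableSet), hOmpre, vol_sca hε hOm]
      calc ENNReal.ofReal c * (ENNReal.ofReal (ε ^ b)⁻¹ * volume (Om b ε))
          = ENNReal.ofReal (ε ^ b)⁻¹ * (ENNReal.ofReal c * volume (Om b ε)) := by ring
        _ ≤ _ := by gcongr)
  refine ⟨u, hu, fun x hxW => ?_⟩
  have h1 := hx x hxW
  rw [hpre, vol_fib_sca hε] at h1
  rw [vb_scale b hε]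
  set η := (c / (64 * ((b : ℝ) + 1) * (b + 2)) * r₀ / 2) ^ b with hη
  have hη0 : 0 < η := by positivity
  have h2 : ENNReal.ofReal (η * (ε ^ b * vb b 1)) =
      ENNReal.ofReal (ε ^ b) * ENNReal.ofReal (η * vb b 1) := by
    rw [← ENNReal.ofReal_mul (by positivity)]
    congr 1
    ring
  rw [h2]
  calc ENNReal.ofReal (ε ^ b) * ENNReal.ofReal (η * vb b 1)
      ≤ ENNReal.ofReal (ε ^ b) * (ENNReal.ofReal (ε ^ b)⁻¹ * volume (fib (Om b ε ∩ G) x)) := by
        gcongr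
    _ = volume (fib (Om b ε ∩ G) x) := by
        rw [← mul_assoc, ← ENNReal.ofReal_mul (by positivity), mul_inv_cancel₀ (by positivity),
          ENNReal.ofReal_one, one_mul]

end Pool.Agent.N271.Cone
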