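import Pool.Agent.N271.Cone.Num
import Pool.Agent.N271.Cone.T3
import Pool.Agent.N271.Cone.T4
import Pool.Agent.N271.Cone.T5
import Pool.Agent.N271.Cone.T6
import Pool.Agent.TH703.Cone.Exist
import Pool.Agent.TH703.Cone.Trans

set_option autoImplicit false

/-! # The main argument on `ℂ × ℝ^b` -/

namespace Pool.Agent.N271.Cone

open MeasureTheory Set Metric Filter Topology Pool.Agent.TH703.Cone
open scoped ENNReal

/-- the volume over a set of base points -/
theorem vol_over {b : ℕ} {Y : Set (W b)} (hY : MeasurableSet Y) {S : Set ℂ}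
    (hS : MeasurableSet S) :
    volume {z | z ∈ Y ∧ z.fst ∈ S} = ∫⁻ x in S, volume (fib Y x) := by
  have hmf : Measurable fun z : W b => z.fst := (WithLp.continuous_fst 2 ℂ (B b)).measurable
  have h1 := lint_set hY (S.indicator fun _ => (1 : ℝ≥0∞)) (measurable_const.indicator hS)
  have h2 : ∀ z : W b, S.indicator (fun _ => (1 : ℝ≥0∞)) z.fst =
      {z : W b | z.fst ∈ S}.indicator (fun _ => 1) z := by
    intro z
    by_cases hz : z.fst ∈ S
    · rw [indicator_of_mem hz, indicator_of_mem (show z ∈ {z : W b | z.fst ∈ S} from hz)]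
    · rw [indicator_of_notMem hz, indicator_of_notMem (show z ∉ {z : W b | z.fst ∈ S} from hz)]
  simp_rw [h2] at h1
  rw [lintegral_indicator (show MeasurableSet {z : W b | z.fst ∈ S} from hmf hS),
    setLIntegral_const, one_mul, Measure.restrict_apply (show MeasurableSet {z : W b | z.fst ∈ S}
      from hmf hS)] at h1
  have h3 : {z : W b | z.fst ∈ S} ∩ Y = {z | z ∈ Y ∧ z.fst ∈ S} := by
    ext z; exact and_comm
  rw [h3] at h1
  rw [h1, ← lintegral_indicator hS]
  congr 1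
  ext x
  by_cases hx : x ∈ S
  · rw [indicator_of_mem hx, indicator_of_mem hx, one_mul]
  · rw [indicator_of_notMem hx, indicator_of_notMem hx, zero_mul]

/-- Chebyshev on the fibres -/
theorem wedge_bound {b : ℕ} {X Y : Set (W b)} (hY : MeasurableSet Y)
    {S : Set ℂ} (hS : MeasurableSet S) {κ : ℝ≥0∞}
    (h : ∀ᵐ x : ℂ, x ∈ S → κ ≤ volume (fib X x)) :
    κ * volume {z | z ∈ Y ∧ z.fst ∈ S} ≤ ∫⁻ x : ℂ, volume (fib X x) * volume (fib Y x) := by
  rw [vol_over hY hS]
  calc κ * ∫⁻ x in S, volume (fib Y x) ≤ ∫⁻ x in S, κ * volume (fib Y x) :=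
        lintegral_const_mul_le _ _
    _ ≤ ∫⁻ x in S, volume (fib X x) * volume (fib Y x) := by
        apply lintegral_mono_ae
        rw [ae_restrict_iff' hS]
        filter_upwards [h] with x hx hxS
        gcongr
        exact hx hxS
    _ ≤ _ := setLIntegral_le_lintegral _ _

/-- null sets have null fibres -/
theorem fib_null {b : ℕ} {N : Set (W b)} (hN : volume N = 0) :
    ∀ᵐ x : ℂ, volume (fib N x) = 0 := by
  obtain ⟨N', hNN, hm, h0⟩ := exists_measurable_superset_of_null hN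
  have h1 := lint_set hm (fun _ => (1 : ℝ≥0∞)) measurable_const
  simp only [setLIntegral_const, one_mul] at h1
  rw [h0] at h1
  have h2 : ∀ᵐ x : ℂ, volume (fib N' x) = 0 := by
    have hmeas : Measurable fun x : ℂ => volume (fib N' x) := by
      have hpre : MeasurableSet ((WithLp.toLp 2 : ℂ × B b → W b) ⁻¹' N') :=
        (WithLp.measurable_toLp 2 _) hm
      exact measurable_measure_prodMk_left hpre
    exact (lintegral_eq_zero_iff hmeas).1 h1.symm
  filter_upwards [h2] with x hx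
  exact measure_mono_null (fun y hy => hNN hy) hx

theorem measurableSet_Wp (u : ℂ) (σ r₀ R₁ : ℝ) : MeasurableSet (Wp u σ r₀ R₁) := by
  unfold Wp
  have c1 : Continuous fun x : ℂ => (x * u).re :=
    Complex.continuous_re.comp (continuous_id.mul continuous_const)
  have c2 : Continuous fun x : ℂ => |(x * u).im| :=
    (Complex.continuous_im.comp (continuous_id.mul continuous_const)).abs
  refine (measurableSet_le measurable_const measurable_norm).inter ?_
  refine (measurableSet_le measurable_norm measurable_const).inter ?_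
  refine (measurableSet_lt measurable_const c1.measurable).inter ?_
  exact measurableSet_le c2.measurable (measurable_const.mul measurable_norm)

theorem mainW (c : ℝ) (hc : 0 < c) (hc1 : c ≤ 1) :
    ∃ (b : ℕ) (ε : ℝ) (A : Set (W b)) (I : ℝ), 1 ≤ b ∧ 0 < ε ∧ MeasurableSet A ∧ A ⊆ Om b ε ∧
      volume A = volume (Om b ε) / 2 ∧ PLE (Om b ε) A I ∧
      (∀ (F : Set (W b)) (Q : ℝ), MeasurableSet F → F ⊆ Om b ε → volume F = volume A →
        PLE (Om b ε) F Q → I ≤ Q) ∧
      ∀ G : Set (W b), IsOpen G → (∀ z ∈ G, ∀ t : ℝ, 0 < t → t • z ∈ G) →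
        (∀ z ∈ G, ∀ w ∈ G, z + w ∈ G) → volume ((Om b ε ∩ G) \ A) = 0 →
        volume ((Om b ε ∩ {z | -z ∈ G}) ∩ A) = 0 →
        ENNReal.ofReal c * volume (Om b ε) ≤ volume (Om b ε ∩ G) → False := by
  obtain ⟨b, r, r₀, hb, hbK, hr0, hr1, hrH, hr₀, hrR, hR, hnum⟩ := numeric c hc hc1
  obtain ⟨σ, η, hσ, hσ2, hη, ht6⟩ := t6 b c 8 r₀ hc hc1 (by norm_num) hbK hr₀
  set p := 2 * Real.pi * r * (1 - r) ^ b with hp
  set L := 2 * ∫ ρ in r₀..((8 - 1) / b), (1 - ρ) ^ b with hL
  have h1r : 0 < 1 - r := by linarith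
  have hp0 : 0 < p := by have := Real.pi_pos; positivity
  set M := 3 / (2 * σ * r₀) * (2 * (2 ^ (b + 1) * p / η)) with hM
  have hM0 : 0 < M := by positivity
  set ε := (L - p) / (2 * M) with hε
  have hε0 : 0 < ε := by
    have : 0 < L - p := by linarith
    positivity
  have hv := vb_pos (b := b) hε0
  have hOm := (isOpen_Om b ε).measurableSet
  have hmf : Measurable fun z : W b => z.fst := (WithLp.continuous_fst 2 ℂ (B b)).measurable
  -- the cylinder
  set A₀ : Set (W b) := {z | z ∈ Om b ε ∧ ‖z.fst‖ < r} with hA₀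
  have hA₀m : MeasurableSet A₀ := by
    have : MeasurableSet {z : W b | ‖z.fst‖ < r} := measurableSet_lt hmf.norm measurable_const
    exact hOm.inter this
  have hA₀s : A₀ ⊆ Om b ε := fun z hz => hz.1
  have hP₀ := t3 b ε r hb hε0 hr0 hr1
  rw [← hp] at hP₀
  have hvol : volume A₀ = volume (Om b ε) / 2 := by
    rw [hA₀, t7b b ε r hb hε0 hr0.le hr1.le, vol_Om b ε hb hε0, hrH]
    rw [show vb b ε * (2 * Real.pi * (HH b 1 / 2)) = vb b ε * (2 * Real.pi * HH b 1) / 2 by ring,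
      ENNReal.ofReal_div_of_pos two_pos]
    norm_num
  have h0 : (0 : W b) ∈ Om b ε := by
    change ‖(0 : ℂ)‖ + ‖(0 : B b)‖ / ε < 1
    simp
  obtain ⟨A, I, hAm, hAs, hAv, hAI, hImin⟩ := exist (W b) (t1 (W b)) (Om b ε) A₀
    (vb b ε * p) (isOpen_Om b ε) (convex_Om b hε0) h0 (isBounded_Om b hε0) hA₀m hA₀s hP₀
  refine ⟨b, ε, A, I, hb, hε0, hAm, hAs, hAv.trans hvol, hAI, ?_, ?_⟩
  · intro F Q hF hFs hFv hFQ
    exact hImin F Q hF hFs (hFv.trans hAv) hFQ
  intro G hGo hGs hGa hG1 hG2 hGc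
  obtain ⟨u, hu, hwedge⟩ := ht6 ε G hε0 hGo hGs hGa hGc
  have hIP : I ≤ vb b ε * p := hImin A₀ _ hA₀m hA₀s rfl hP₀
  have hAP : PLE (Om b ε) A (vb b ε * p) := fun φ hφ => (hAI φ hφ).trans hIP
  have h5 := t5 b ε (vb b ε * p) A hb hε0 hAm hAs (by positivity) hAP
  have h4 := t4 b ε (vb b ε * p) A u σ r₀ ((8 - 1) / b) hb hε0 hAm hAs hAP hu hσ hσ2 hr₀ hrR hR
  rw [← hL] at h4
  set S := Wp u σ r₀ ((8 - 1) / b) with hS
  have hSm : MeasurableSet S := measurableSet_Wp _ _ _ _
  have hSm' : MeasurableSet {x : ℂ | -x ∈ S} := measurable_neg hSm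
  -- first wedge
  have hw1 : ∀ᵐ x : ℂ, x ∈ S → ENNReal.ofReal (η * vb b ε) ≤ volume (fib A x) := by
    filter_upwards [fib_null hG1] with x hx hxS
    refine (hwedge x hxS).trans ?_
    have hsub : fib (Om b ε ∩ G) x ⊆ fib A x ∪ fib ((Om b ε ∩ G) \ A) x := by
      intro y hy
      by_cases hyA : y ∈ fib A x
      · exact Or.inl hyA
      · exact Or.inr ⟨hy, hyA⟩
    refine (measure_mono hsub).trans ((measure_union_le _ _).trans ?_)
    rw [hx, add_zero]
  have hw2 : ∀ᵐ x : ℂ, x ∈ {x : ℂ | -x ∈ S} →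
      ENNReal.ofReal (η * vb b ε) ≤ volume (fib (Om b ε \ A) x) := by
    filter_upwards [fib_null hG2] with x hx hxS
    refine (hwedge (-x) hxS).trans ?_
    have hsymm : fib (Om b ε ∩ G) (-x) = Neg.neg ⁻¹' (fib (Om b ε ∩ {z | -z ∈ G}) x) := by
      ext y
      change (_ ∧ _) ↔ (_ ∧ _)
      have e1 : ((WithLp.toLp 2 (-x, y) : W b) ∈ Om b ε) ↔
          ((WithLp.toLp 2 (x, -y) : W b) ∈ Om b ε) := by
        change ‖-x‖ + ‖y‖ / ε < 1 ↔ ‖x‖ + ‖-y‖ / ε < 1
        rw [norm_neg, norm_neg]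
      have e2 : -(WithLp.toLp 2 (x, -y) : W b) = WithLp.toLp 2 (-x, y) := by
        rw [← WithLp.toLp_neg, Prod.neg_mk, neg_neg]
      rw [e1]
      constructor
      · rintro ⟨h1, h2⟩
        refine ⟨h1, ?_⟩
        change -(WithLp.toLp 2 (x, -y) : W b) ∈ G
        rw [e2]; exact h2
      · rintro ⟨h1, h2⟩
        refine ⟨h1, ?_⟩
        change -(WithLp.toLp 2 (x, -y) : W b) ∈ G at h2
        rw [e2] at h2; exact h2
    rw [hsymm, Measure.measure_preimage_neg]
    have hsub : fib (Om b ε ∩ {z | -z ∈ G}) x ⊆ fib (Om b ε \ A) x ∪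
        fib ((Om b ε ∩ {z | -z ∈ G}) ∩ A) x := by
      intro y hy
      by_cases hyA : y ∈ fib A x
      · exact Or.inr ⟨hy, hyA⟩
      · exact Or.inl ⟨hy.1, hyA⟩
    refine (measure_mono hsub).trans ((measure_union_le _ _).trans ?_)
    rw [hx, add_zero]
  have hb1 := (wedge_bound (hOm.diff hAm) hSm hw1).trans h5
  have hb2 := (wedge_bound hAm hSm' hw2)
  simp_rw [mul_comm (volume (fib (Om b ε \ A) _))] at hb2
  replace hb2 := hb2.trans h5
  have hreal : ∀ m : ℝ≥0∞, ENNReal.ofReal (η * vb b ε) * m ≤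
      ENNReal.ofReal (2 ^ (b + 1) * ε * vb b ε * (vb b ε * p)) →
      m.toReal ≤ 2 ^ (b + 1) * p / η * (ε * vb b ε) := by
    intro m hm
    have h1 := ENNReal.toReal_mono ENNReal.ofReal_ne_top hm
    rw [ENNReal.toReal_mul, ENNReal.toReal_ofReal (by positivity),
      ENNReal.toReal_ofReal (by positivity)] at h1
    have h2 : η * m.toReal ≤ 2 ^ (b + 1) * p * (ε * vb b ε) := by
      have : vb b ε * (η * m.toReal) ≤ vb b ε * (2 ^ (b + 1) * p * (ε * vb b ε)) := by
        calc vb b ε * (η * m.toReal) = η * vb b ε * m.toReal := by ring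
          _ ≤ _ := h1
          _ = _ := by ring
      exact le_of_mul_le_mul_left this hv
    rw [div_mul_eq_mul_div, le_div_iff₀ hη]
    linarith
  have hf1 := hreal _ hb1
  have hf2 := hreal _ hb2
  change volume.real {z | z ∈ Om b ε \ A ∧ z.fst ∈ S} ≤ _ at hf1
  change volume.real {z | z ∈ A ∧ -z.fst ∈ S} ≤ _ at hf2
  have h6 : vb b ε * L ≤ vb b ε * p + vb b ε * (M * ε) := by
    refine h4.trans ?_
    have : 3 / (2 * σ * r₀) * (volume.real {z | z ∈ Om b ε \ A ∧ z.fst ∈ S} +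
        volume.real {z | z ∈ A ∧ -z.fst ∈ S}) ≤
        3 / (2 * σ * r₀) * (2 ^ (b + 1) * p / η * (ε * vb b ε) +
          2 ^ (b + 1) * p / η * (ε * vb b ε)) := by
      gcongr
    calc _ ≤ vb b ε * p + 3 / (2 * σ * r₀) * (2 ^ (b + 1) * p / η * (ε * vb b ε) +
          2 ^ (b + 1) * p / η * (ε * vb b ε)) := by linarith
      _ = _ := by rw [hM]; ring
  have h7 : L ≤ p + M * ε := by
    rw [← mul_add] at h6
    exact le_of_mul_le_mul_left h6 hv
  have h8 : M * ε = (L - p) / 2 := by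
    rw [hε]; field_simp
  rw [h8] at h7
  linarith

end Pool.Agent.N271.Cone
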