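import Pool.Agent.N271.Cone.Vol

set_option autoImplicit false

/-! # The numerical inequality -/

namespace Pool.Agent.N271.Cone

open MeasureTheory Set Metric
open scoped ENNReal

theorem int_pow (b : ℕ) (x y : ℝ) :
    ∫ ρ in x..y, (1 - ρ) ^ b = ((1 - x) ^ (b + 1) - (1 - y) ^ (b + 1)) / (b + 1) := by
  have hb : (0 : ℝ) < (b : ℝ) + 1 := by positivity
  have h : ∀ t : ℝ, HasDerivAt (fun t : ℝ => -(1 - t) ^ (b + 1) / (b + 1)) ((1 - t) ^ b) t := by
    intro t
    have h1 : HasDerivAt (fun r : ℝ => (1 - r) ^ (b + 1))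
        (((b + 1 : ℕ) : ℝ) * (1 - t) ^ b * (-1)) t := by
      have := ((hasDerivAt_id' t).const_sub 1).fun_pow (b + 1)
      simpa using this
    refine (h1.neg.div_const ((b : ℝ) + 1)).congr_deriv ?_
    rw [div_eq_iff hb.ne']
    push_cast
    ring
  rw [intervalIntegral.integral_eq_sub_of_hasDerivAt (fun t _ => h t)]
  · ring
  · apply Continuous.intervalIntegrable
    fun_prop

theorem exp17 : (5.4 : ℝ) < Real.exp 1.7 := by
  have h1 : (2.718 : ℝ) < Real.exp 1 := lt_trans (by norm_num) Real.exp_one_gt_d9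
  have h2 : (5.4 : ℝ) ^ 10 < Real.exp 1.7 ^ 10 := by
    calc (5.4 : ℝ) ^ 10 < 2.718 ^ 17 := by norm_num
      _ < Real.exp 1 ^ 17 := by gcongr
      _ = Real.exp 1.7 ^ 10 := by
        rw [← Real.exp_nat_mul, ← Real.exp_nat_mul]; norm_num
  exact lt_of_pow_lt_pow_left₀ 10 (Real.exp_pos _).le h2

theorem exp7 : (1000 : ℝ) < Real.exp 7 := by
  have h1 : (2.718 : ℝ) < Real.exp 1 := lt_trans (by norm_num) Real.exp_one_gt_d9
  calc (1000 : ℝ) < 2.718 ^ 7 := by norm_num
      _ < Real.exp 1 ^ 7 := by gcongr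
      _ = Real.exp 7 := by
        rw [← Real.exp_nat_mul]; norm_num

theorem HH_mono (b : ℕ) : MonotoneOn (HH b) (Icc 0 1) := by
  apply monotoneOn_of_deriv_nonneg (convex_Icc 0 1)
  · exact fun x _ => (hasDerivAt_HH b x).continuousAt.continuousWithinAt
  · exact fun x _ => (hasDerivAt_HH b x).differentiableAt.differentiableWithinAt
  · intro x hx
    rw [interior_Icc] at hx
    rw [(hasDerivAt_HH b x).deriv]
    have h1 : 0 ≤ 1 - x := by linarith [hx.2]
    have h2 : 0 ≤ x := hx.1.le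
    positivity

theorem numeric (c : ℝ) (hc : 0 < c) (hc1 : c ≤ 1) :
    ∃ (b : ℕ) (r r₀ : ℝ), 1 ≤ b ∧ 100 * (8 : ℝ) ^ 2 / c ^ 2 ≤ b ∧ 0 < r ∧ r < 1 ∧
      HH b r = HH b 1 / 2 ∧ 0 < r₀ ∧ r₀ < (8 - 1) / b ∧ ((8 : ℝ) - 1) / b < 1 ∧
      2 * Real.pi * r * (1 - r) ^ b < 2 * ∫ ρ in r₀..((8 - 1) / b), (1 - ρ) ^ b := by
  obtain ⟨b, hb⟩ := exists_nat_ge (100 * (8 : ℝ) ^ 2 / c ^ 2)
  have hbig : (6400 : ℝ) ≤ b := by
    refine le_trans ?_ hb
    rw [le_div_iff₀ (by positivity)]
    nlinarith [pow_le_one₀ hc.le hc1 (n := 2)]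
  have hb1 : 1 ≤ b := by
    have : (1 : ℝ) ≤ b := by linarith
    exact_mod_cast this
  have hbp : (0 : ℝ) < b := by linarith
  have hN : (0 : ℝ) < (b : ℝ) + 1 := by linarith
  have hH1 : 0 < HH b 1 := by rw [HH_one]; positivity
  -- the median
  obtain ⟨r, hr, hrH⟩ : ∃ r ∈ Icc (0 : ℝ) 1, HH b r = HH b 1 / 2 := by
    have hcont : ContinuousOn (HH b) (Icc 0 1) :=
      fun x _ => (hasDerivAt_HH b x).continuousAt.continuousWithinAt
    have := intermediate_value_Icc (zero_le_one' ℝ) hcont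
    have h2 : HH b 1 / 2 ∈ Icc (HH b 0) (HH b 1) := by
      rw [HH_zero]; constructor <;> linarith
    exact this h2
  have hr0 : 0 < r := by
    rcases hr.1.lt_or_eq with h | h
    · exact h
    · rw [← h, HH_zero] at hrH; linarith
  have hr1 : r < 1 := by
    rcases hr.2.lt_or_eq with h | h
    · exact h
    · rw [h] at hrH; linarith
  have hkey : (1 - r) ^ (b + 1) * (1 + (b + 1) * r) = 1 / 2 := by
    rw [HH_one] at hrH
    unfold HH at hrH
    rw [div_eq_iff (by positivity)] at hrH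
    have : (1 : ℝ) / ((b + 1) * (b + 2)) / 2 * ((b + 1) * (b + 2)) = 1 / 2 := by
      field_simp
    rw [this] at hrH
    linarith
  -- the upper bound for `r`
  have hr17 : r ≤ 1.7 / (b + 1) := by
    by_contra hlt
    push Not at hlt
    have hs0 : (0 : ℝ) ≤ 1.7 / (b + 1) := by positivity
    have hs1 : (1.7 : ℝ) / (b + 1) ≤ 1 := by
      rw [div_le_one hN]; linarith
    have h1 := HH_mono b ⟨hs0, hs1⟩ ⟨hr0.le, hr1.le⟩ hlt.le
    rw [hrH, HH_one] at h1
    unfold HH at h1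
    have h2 : (1 : ℝ) - (1 - 1.7 / (b + 1)) ^ (b + 1) * (1 + (b + 1) * (1.7 / (b + 1))) ≤
        1 / 2 := by
      rw [div_le_iff₀ (by positivity)] at h1
      have : (1 : ℝ) / ((b + 1) * (b + 2)) / 2 * ((b + 1) * (b + 2)) = 1 / 2 := by
        field_simp
      rw [this] at h1
      exact h1
    have h3 : (1 : ℝ) + (b + 1) * (1.7 / (b + 1)) = 2.7 := by
      rw [mul_div_cancel₀ _ hN.ne']; norm_num
    rw [h3] at h2
    have h4 : (1 - 1.7 / ((b : ℝ) + 1)) ^ (b + 1) ≤ Real.exp (-1.7) := by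
      have := Real.one_sub_div_pow_le_exp_neg (n := b + 1) (t := 1.7) (by push_cast; linarith)
      push_cast at this
      exact this
    have h5 : Real.exp (-1.7) < 1 / 5.4 := by
      rw [Real.exp_neg, ← one_div]
      exact one_div_lt_one_div_of_lt (by norm_num) exp17
    norm_num at h2 h4 h5
    linarith
  have hR : ((8 : ℝ) - 1) / b < 1 := by
    rw [div_lt_one hbp]; linarith
  refine ⟨b, r, 0.001 / (b + 1), hb1, hb, hr0, hr1, hrH, by positivity, ?_, hR, ?_⟩
  · rw [div_lt_div_iff₀ hN hbp]; nlinarith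
  · rw [int_pow]
    have hr0' : 0 < 1 - r := by linarith
    have e1 : (1 - r) ^ b = 1 / (2 * (1 - r) * (1 + (b + 1) * r)) := by
      rw [eq_div_iff (by positivity)]
      rw [pow_succ] at hkey
      linarith
    have e2 : (1 - 0.001 / ((b : ℝ) + 1)) ^ (b + 1) ≥ 0.999 := by
      have h1 : (-2 : ℝ) ≤ -(0.001 / ((b : ℝ) + 1)) := by
        have : 0.001 / ((b : ℝ) + 1) ≤ 1 := by rw [div_le_one hN]; norm_num; linarith
        linarith
      have := one_add_mul_le_pow h1 (b + 1)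
      push_cast at this
      rw [mul_neg, mul_div_cancel₀ _ hN.ne'] at this
      rw [sub_eq_add_neg]
      norm_num at this ⊢
      linarith
    have e3 : (1 - (8 - 1) / (b : ℝ)) ^ (b + 1) ≤ 0.001 := by
      have h0 : 0 ≤ 1 - (8 - 1) / (b : ℝ) := by linarith
      have h1 : (1 - (8 - 1) / (b : ℝ)) ^ (b + 1) ≤ (1 - (8 - 1) / (b : ℝ)) ^ b := by
        apply pow_le_pow_of_le_one h0 _ (Nat.le_succ b)
        have : 0 ≤ (8 - 1) / (b : ℝ) := by norm_num; positivity
        linarith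
      have h2 : (1 - (8 - 1) / (b : ℝ)) ^ b ≤ Real.exp (-(8 - 1)) :=
        Real.one_sub_div_pow_le_exp_neg (by linarith)
      have h3 : Real.exp (-(8 - 1)) < 1 / 1000 := by
        rw [Real.exp_neg, ← one_div]
        apply one_div_lt_one_div_of_lt (by norm_num)
        have := exp7
        norm_num
        exact this
      norm_num at h1 h2 h3 ⊢
      linarith
    have e4 : 2 * Real.pi * r * (1 - r) ^ b ≤ 1.98 / (b + 1) := by
      rw [e1]
      have hπ : Real.pi < 3.1416 := Real.pi_lt_d4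
      have hπ0 := Real.pi_pos
      have ht : (b + 1 : ℝ) * r ≤ 1.7 := by
        rw [le_div_iff₀ hN] at hr17; linarith
      have hrs : r ≤ 0.0003 := by
        refine hr17.trans ?_
        rw [div_le_iff₀ hN]; norm_num; linarith
      rw [mul_one_div, div_le_div_iff₀ (by positivity) hN]
      set t := (b + 1 : ℝ) * r with htd
      have ht0 : 0 < t := by positivity
      have hgoal : 2 * Real.pi * r * ((b : ℝ) + 1) = 2 * Real.pi * t := by rw [htd]; ring
      rw [hgoal]
      have h6 : 2 * Real.pi * t ≤ 2 * 3.1416 * t := by nlinarith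
      have h7 : 1.98 * (2 * (1 - r) * (1 + t)) ≥ 1.98 * (2 * (1 - 0.0003) * (1 + t)) := by
        have : (1 - r) ≥ 1 - 0.0003 := by linarith
        nlinarith
      have h8 : 2 * 3.1416 * t ≤ 1.98 * (2 * (1 - 0.0003) * (1 + t)) := by
        norm_num
        norm_num at ht
        linarith
      linarith
    have e5 : 1.996 / ((b : ℝ) + 1) ≤
        2 * (((1 - 0.001 / ((b : ℝ) + 1)) ^ (b + 1) - (1 - (8 - 1) / (b : ℝ)) ^ (b + 1)) /
          (b + 1)) := by
      rw [← mul_div_assoc, div_le_div_iff_of_pos_right hN]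
      norm_num at e2 e3 ⊢
      linarith
    refine lt_of_le_of_lt e4 (lt_of_lt_of_le ?_ e5)
    rw [div_lt_div_iff_of_pos_right hN]
    norm_num

end Pool.Agent.N271.Cone
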