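import Pool.Agent.N271.Cone.T5

set_option autoImplicit false

/-! # T4: the rotational field -/

namespace Pool.Agent.N271.Cone

open MeasureTheory Set Metric Filter Topology Pool.Agent.TH703.Cone
open scoped ENNReal InnerProductSpace

/-- the odd step: `-1` for `t ≤ -1`, `1` for `t ≥ 1` -/
noncomputable def so (t : ℝ) : ℝ := 2 * sg ((t + 1) / 2) - 1

theorem hasDerivAt_so (t : ℝ) : HasDerivAt so (kk ((t + 1) / 2)) t := by
  have h1 : HasDerivAt (fun t : ℝ => (t + 1) / 2) (1 / 2) t :=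
    ((hasDerivAt_id' t).add_const 1).div_const 2
  have h2 := (((hasDerivAt_sg _).comp t h1).const_mul 2).sub_const 1
  refine h2.congr_deriv ?_
  ring

theorem contDiff_so : ContDiff ℝ 1 so := by
  unfold so
  exact (contDiff_const.mul (contDiff_sg.comp ((contDiff_id.add contDiff_const).div_const 2))).sub
    contDiff_const

theorem abs_so_le (t : ℝ) : |so t| ≤ 1 := by
  unfold so
  have h1 := sg_nonneg ((t + 1) / 2)
  have h2 := sg_le_one ((t + 1) / 2)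
  rw [abs_le]; constructor <;> linarith

/-- the cutoff -/
noncomputable def eta {b : ℕ} (ε r₀ R₁ : ℝ) (n : ℕ) (z : W b) : ℝ :=
  sg ((n : ℝ) * (‖z.fst‖ - r₀) - 1) * sg ((n : ℝ) * (R₁ - ‖z.fst‖) - 1) *
    sg ((n : ℝ) * ((1 - ‖z.fst‖) ^ 2 - ‖z.snd‖ ^ 2 / ε ^ 2) - 1)

theorem eta_nonneg {b : ℕ} (ε r₀ R₁ : ℝ) (n : ℕ) (z : W b) : 0 ≤ eta ε r₀ R₁ n z :=
  mul_nonneg (mul_nonneg (sg_nonneg _) (sg_nonneg _)) (sg_nonneg _)

theorem eta_le_one {b : ℕ} (ε r₀ R₁ : ℝ) (n : ℕ) (z : W b) : eta ε r₀ R₁ n z ≤ 1 :=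
  mul_le_one₀ (mul_le_one₀ (sg_le_one _) (sg_nonneg _) (sg_le_one _)) (sg_nonneg _) (sg_le_one _)

theorem sg_pos_imp {t : ℝ} (h : sg t ≠ 0) : 0 < t := by
  by_contra h1
  exact h (sg_of_nonpos (not_lt.1 h1))

theorem eta_ne_zero {b : ℕ} {ε r₀ R₁ : ℝ} {n : ℕ} {z : W b} (h : eta ε r₀ R₁ n z ≠ 0) :
    1 < (n : ℝ) * (‖z.fst‖ - r₀) ∧ 1 < (n : ℝ) * (R₁ - ‖z.fst‖) ∧
      1 < (n : ℝ) * ((1 - ‖z.fst‖) ^ 2 - ‖z.snd‖ ^ 2 / ε ^ 2) := by
  unfold eta at h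
  have h1 := left_ne_zero_of_mul (left_ne_zero_of_mul h)
  have h2 := right_ne_zero_of_mul (left_ne_zero_of_mul h)
  have h3 := right_ne_zero_of_mul h
  have := sg_pos_imp h1
  have := sg_pos_imp h2
  have := sg_pos_imp h3
  refine ⟨by linarith, by linarith, by linarith⟩

/-- the closed set containing the support of the cutoff -/
def KS (b : ℕ) (ε r₀ R₁ : ℝ) (n : ℕ) : Set (W b) :=
  {z | 1 ≤ (n : ℝ) * (‖z.fst‖ - r₀) ∧ 1 ≤ (n : ℝ) * (R₁ - ‖z.fst‖) ∧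
      1 ≤ (n : ℝ) * ((1 - ‖z.fst‖) ^ 2 - ‖z.snd‖ ^ 2 / ε ^ 2)}

theorem isClosed_KS (b : ℕ) (ε r₀ R₁ : ℝ) (n : ℕ) : IsClosed (KS b ε r₀ R₁ n) := by
  have c1 : Continuous fun z : W b => (n : ℝ) * (‖z.fst‖ - r₀) := by fun_prop
  have c2 : Continuous fun z : W b => (n : ℝ) * (R₁ - ‖z.fst‖) := by fun_prop
  have c3 : Continuous fun z : W b => (n : ℝ) * ((1 - ‖z.fst‖) ^ 2 - ‖z.snd‖ ^ 2 / ε ^ 2) := by
    fun_prop
  exact (isClosed_le continuous_const c1).inter ((isClosed_le continuous_const c2).inter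
    (isClosed_le continuous_const c3))

theorem KS_props {b : ℕ} {ε r₀ R₁ : ℝ} (hε : 0 < ε) (hR : R₁ < 1) {n : ℕ} {z : W b}
    (hz : z ∈ KS b ε r₀ R₁ n) : r₀ < ‖z.fst‖ ∧ ‖z.fst‖ < R₁ ∧ z ∈ Om b ε := by
  obtain ⟨h1, h2, h3⟩ := hz
  have hn : (0 : ℝ) ≤ n := Nat.cast_nonneg n
  have a1 : 0 < ‖z.fst‖ - r₀ := by
    by_contra h
    push Not at h
    have := mul_nonpos_of_nonneg_of_nonpos hn h
    linarith
  have a2 : 0 < R₁ - ‖z.fst‖ := by
    by_contra h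
    push Not at h
    have := mul_nonpos_of_nonneg_of_nonpos hn h
    linarith
  have a3 : 0 < (1 - ‖z.fst‖) ^ 2 - ‖z.snd‖ ^ 2 / ε ^ 2 := by
    by_contra h
    push Not at h
    have := mul_nonpos_of_nonneg_of_nonpos hn h
    linarith
  refine ⟨by linarith, by linarith, ?_⟩
  change ‖z.fst‖ + ‖z.snd‖ / ε < 1
  have h4 : (‖z.snd‖ / ε) ^ 2 < (1 - ‖z.fst‖) ^ 2 := by rw [div_pow]; linarith
  have h5 := (pow_lt_pow_iff_left₀ (by positivity) (by linarith) two_ne_zero).1 h4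
  linarith

/-- the rotation field, divided by `|x|` -/
def JJ {b : ℕ} (z : W b) : W b := WithLp.toLp 2 (Complex.I * z.fst, 0)

/-- the coefficient of the field -/
noncomputable def FF {b : ℕ} (u : ℂ) (σ ε r₀ R₁ : ℝ) (n : ℕ) (z : W b) : ℝ :=
  eta ε r₀ R₁ n z * so ((z.fst * u).im / (σ * ‖z.fst‖)) / ‖z.fst‖

/-- the field -/
noncomputable def PF {b : ℕ} (u : ℂ) (σ ε r₀ R₁ : ℝ) (n : ℕ) (z : W b) : W b :=
  FF u σ ε r₀ R₁ n z • JJ z

/-- `JJ` as a continuous linear map -/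
noncomputable def JL (b : ℕ) : W b →L[ℝ] W b :=
  (WithLp.prodContinuousLinearEquiv 2 ℝ ℂ (B b)).symm.toContinuousLinearMap.comp
    (((ContinuousLinearMap.mul ℝ ℂ Complex.I).comp (WithLp.fstL 2 ℝ ℂ (B b))).prod 0)

theorem JL_apply {b : ℕ} (z : W b) : JL b z = JJ z := rfl

theorem norm_JJ {b : ℕ} (z : W b) : ‖JJ z‖ = ‖z.fst‖ := by
  have h4 : ‖JJ z‖ ^ 2 = ‖Complex.I * z.fst‖ ^ 2 + ‖(0 : B b)‖ ^ 2 :=
    WithLp.prod_norm_sq_eq_of_L2 (JJ z)
  rw [norm_zero, norm_mul, Complex.norm_I, one_mul, zero_pow two_ne_zero, add_zero] at h4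
  exact (pow_left_inj₀ (norm_nonneg _) (norm_nonneg _) two_ne_zero).1 h4

theorem contDiffAt_eta {b : ℕ} (ε r₀ R₁ : ℝ) (n : ℕ) {z : W b} (hz : z.fst ≠ 0) :
    ContDiffAt ℝ 1 (eta (b := b) ε r₀ R₁ n) z := by
  have h1 : ContDiffAt ℝ 1 (fun z : W b => z.fst) z := (WithLp.fstL 2 ℝ ℂ (B b)).contDiff.contDiffAt
  have h2 : ContDiffAt ℝ 1 (fun z : W b => ‖z.fst‖) z := h1.norm ℝ hz
  have h3 : ContDiffAt ℝ 1 (fun z : W b => ‖z.snd‖ ^ 2) z :=
    (ContDiff.norm_sq ℝ (WithLp.sndL 2 ℝ ℂ (B b)).contDiff).contDiffAt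
  unfold eta
  refine ContDiffAt.mul (ContDiffAt.mul ?_ ?_) ?_
  · exact contDiff_sg.contDiffAt.comp z ((contDiffAt_const.mul (h2.sub contDiffAt_const)).sub
      contDiffAt_const)
  · exact contDiff_sg.contDiffAt.comp z ((contDiffAt_const.mul (contDiffAt_const.sub h2)).sub
      contDiffAt_const)
  · exact contDiff_sg.contDiffAt.comp z ((contDiffAt_const.mul
      (((contDiffAt_const.sub h2).pow 2).sub (h3.div_const _))).sub contDiffAt_const)

theorem contDiff_FF {b : ℕ} (u : ℂ) {σ ε r₀ R₁ : ℝ} (hσ : 0 < σ) (hr₀ : 0 < r₀) (n : ℕ) :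
    ContDiff ℝ 1 (FF (b := b) u σ ε r₀ R₁ n) := by
  rw [contDiff_iff_contDiffAt]
  intro z
  by_cases hz : z.fst = 0
  · have hev : FF (b := b) u σ ε r₀ R₁ n =ᶠ[𝓝 z] fun _ => 0 := by
      have hc : Continuous fun z : W b => ‖z.fst‖ := by fun_prop
      have : {w : W b | ‖w.fst‖ < r₀} ∈ 𝓝 z := by
        apply (isOpen_lt hc continuous_const).mem_nhds
        rw [mem_ofPred_eq, hz, norm_zero]; exact hr₀
      filter_upwards [this] with w hw
      have h0 : eta ε r₀ R₁ n w = 0 := by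
        by_contra h
        have h1 := (eta_ne_zero h).1
        have hn : (0 : ℝ) ≤ n := Nat.cast_nonneg n
        have hw' : ‖w.fst‖ < r₀ := hw
        have := mul_nonpos_of_nonneg_of_nonpos hn (by linarith : ‖w.fst‖ - r₀ ≤ 0)
        linarith
      unfold FF
      rw [h0]; simp
    exact contDiffAt_const.congr_of_eventuallyEq hev
  · have hn : ‖z.fst‖ ≠ 0 := norm_ne_zero_iff.2 hz
    have h1 : ContDiffAt ℝ 1 (fun z : W b => z.fst) z :=
      (WithLp.fstL 2 ℝ ℂ (B b)).contDiff.contDiffAt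
    have h2 : ContDiffAt ℝ 1 (fun z : W b => ‖z.fst‖) z := h1.norm ℝ hz
    have h3 : ContDiffAt ℝ 1 (fun z : W b => (z.fst * u).im) z :=
      (Complex.imCLM.contDiff.comp ((WithLp.fstL 2 ℝ ℂ (B b)).contDiff.mul
        contDiff_const)).contDiffAt
    unfold FF
    refine ContDiffAt.div (ContDiffAt.mul (contDiffAt_eta ε r₀ R₁ n hz) ?_) h2 hn
    exact contDiff_so.contDiffAt.comp z (ContDiffAt.div h3 (contDiffAt_const.mul h2)
      (mul_ne_zero hσ.ne' hn))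

theorem FF_zero_of_notMem {b : ℕ} (u : ℂ) (σ : ℝ) {ε r₀ R₁ : ℝ} {n : ℕ} {z : W b}
    (hz : z ∉ KS b ε r₀ R₁ n) : FF u σ ε r₀ R₁ n z = 0 := by
  have h0 : eta ε r₀ R₁ n z = 0 := by
    by_contra h
    obtain ⟨h1, h2, h3⟩ := eta_ne_zero h
    exact hz ⟨h1.le, h2.le, h3.le⟩
  unfold FF
  rw [h0]; simp

theorem tst_PF {b : ℕ} (u : ℂ) {σ ε r₀ R₁ : ℝ} (hσ : 0 < σ) (hε : 0 < ε) (hr₀ : 0 < r₀)
    (hR : R₁ < 1) (n : ℕ) : Tst (Om b ε) (PF (b := b) u σ ε r₀ R₁ n) := by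
  have hsub : tsupport (PF (b := b) u σ ε r₀ R₁ n) ⊆ KS b ε r₀ R₁ n := by
    refine closure_minimal ?_ (isClosed_KS b ε r₀ R₁ n)
    intro z hz
    by_contra h
    apply hz
    unfold PF
    rw [FF_zero_of_notMem u σ h, zero_smul]
  have hKO : KS b ε r₀ R₁ n ⊆ Om b ε := fun z hz => (KS_props hε hR hz).2.2
  refine ⟨(contDiff_FF u hσ hr₀ n).smul (JL b).contDiff, ?_, hsub.trans hKO, ?_⟩
  · have hb : Bornology.IsBounded (tsupport (PF (b := b) u σ ε r₀ R₁ n)) :=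
      (isBounded_Om b hε).subset (hsub.trans hKO)
    exact isCompact_of_isClosed_isBounded (isClosed_tsupport _) hb
  · intro z
    unfold PF
    rw [norm_smul, norm_JJ]
    by_cases hz : z ∈ KS b ε r₀ R₁ n
    · have hx : 0 < ‖z.fst‖ := hr₀.trans (KS_props hε hR hz).1
      unfold FF
      rw [norm_div, norm_norm, div_mul_cancel₀ _ hx.ne', norm_mul, Real.norm_eq_abs,
        Real.norm_eq_abs, abs_of_nonneg (eta_nonneg _ _ _ _ _)]
      exact mul_le_one₀ (eta_le_one _ _ _ _ _) (abs_nonneg _) (abs_so_le _)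
    · rw [FF_zero_of_notMem u σ hz, norm_zero, zero_mul]
      exact zero_le_one

/-- the rotation of the first factor -/
noncomputable def rot {b : ℕ} (z : W b) (θ : ℝ) : W b :=
  WithLp.toLp 2 (Complex.exp (θ * Complex.I) * z.fst, z.snd)

theorem hasDerivAt_rot {b : ℕ} (z : W b) : HasDerivAt (rot z) (JJ z) 0 := by
  have h1 : HasDerivAt (fun θ : ℝ => Complex.exp (θ * Complex.I) * z.fst) (Complex.I * z.fst) 0 := by
    have h2 : HasDerivAt (fun θ : ℝ => (θ : ℂ) * Complex.I) Complex.I 0 := by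
      have := (Complex.ofRealCLM.hasDerivAt (x := (0 : ℝ))).mul_const Complex.I
      simpa using this
    have h3 := (h2.cexp).mul_const z.fst
    simpa using h3
  have h2 : HasDerivAt (fun θ : ℝ => (Complex.exp (θ * Complex.I) * z.fst, z.snd))
      (Complex.I * z.fst, (0 : B b)) 0 := h1.prodMk (hasDerivAt_const _ _)
  exact ((WithLp.prodContinuousLinearEquiv 2 ℝ ℂ (B b)).symm.hasFDerivAt.comp_hasDerivAt
    (0 : ℝ) h2)

theorem norm_rot_fst {b : ℕ} (z : W b) (θ : ℝ) : ‖(rot z θ).fst‖ = ‖z.fst‖ := by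
  change ‖Complex.exp (θ * Complex.I) * z.fst‖ = _
  rw [norm_mul, Complex.norm_exp_ofReal_mul_I, one_mul]

theorem FF_rot {b : ℕ} (u : ℂ) (σ ε r₀ R₁ : ℝ) (n : ℕ) (z : W b) (θ : ℝ) :
    FF u σ ε r₀ R₁ n (rot z θ) = eta ε r₀ R₁ n z *
      so ((Complex.exp (θ * Complex.I) * z.fst * u).im / (σ * ‖z.fst‖)) / ‖z.fst‖ := by
  unfold FF eta
  rw [norm_rot_fst]
  rfl

/-- the divergence of the field -/
theorem dv_PF {b : ℕ} (u : ℂ) {σ ε r₀ R₁ : ℝ} (hσ : 0 < σ) (hr₀ : 0 < r₀) (n : ℕ) (z : W b) :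
    dv (PF (b := b) u σ ε r₀ R₁ n) z = eta ε r₀ R₁ n z *
      (kk (((z.fst * u).im / (σ * ‖z.fst‖) + 1) / 2) * ((z.fst * u).re / (σ * ‖z.fst‖)) /
        ‖z.fst‖) := by
  have hF := contDiff_FF (b := b) u (ε := ε) (R₁ := R₁) hσ hr₀ n
  have h1 : dv (PF (b := b) u σ ε r₀ R₁ n) z =
      FF u σ ε r₀ R₁ n z * dv (JL b) z + fderiv ℝ (FF u σ ε r₀ R₁ n) z (JL b z) :=
    Div.dv_smul (g := FF u σ ε r₀ R₁ n) (φ := JL b) (hF.differentiable (by norm_num) z)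
      (JL b).differentiableAt
  have h2 : dv (JL b) z = 0 := by
    unfold dv
    rw [ContinuousLinearMap.fderiv]
    rw [LinearMap.trace_eq_sum_inner _ (stdOrthonormalBasis ℝ (W b))]
    refine Finset.sum_eq_zero fun i _ => ?_
    have h3 : ∀ w : W b, ⟪w, JL b w⟫_ℝ = 0 := by
      intro w
      rw [JL_apply]
      have h4 : ⟪w, JJ w⟫_ℝ = ⟪w.fst, Complex.I * w.fst⟫_ℝ + ⟪w.snd, (0 : B b)⟫_ℝ := rfl
      rw [h4, inner_zero_right, add_zero, Complex.inner]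
      simp
      ring
    exact h3 _
  rw [h1, h2, mul_zero, zero_add, JL_apply]
  have h3 : HasDerivAt (fun θ => FF u σ ε r₀ R₁ n (rot z θ))
      (fderiv ℝ (FF u σ ε r₀ R₁ n) z (JJ z)) 0 := by
    have h4 : rot z 0 = z := by
      unfold rot
      simp
      rfl
    have h5 : HasFDerivAt (FF u σ ε r₀ R₁ n) (fderiv ℝ (FF u σ ε r₀ R₁ n) z) (rot z 0) := by
      rw [h4]
      exact (hF.differentiable (by norm_num) z).hasFDerivAt
    exact h5.comp_hasDerivAt (0 : ℝ) (hasDerivAt_rot z)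
  have h6 : HasDerivAt (fun θ => FF u σ ε r₀ R₁ n (rot z θ))
      (eta ε r₀ R₁ n z *
      (kk (((z.fst * u).im / (σ * ‖z.fst‖) + 1) / 2) * ((z.fst * u).re / (σ * ‖z.fst‖)) /
        ‖z.fst‖)) 0 := by
    have e : (fun θ => FF u σ ε r₀ R₁ n (rot z θ)) = fun θ : ℝ => eta ε r₀ R₁ n z *
      so ((Complex.exp (θ * Complex.I) * z.fst * u).im / (σ * ‖z.fst‖)) / ‖z.fst‖ :=
      funext fun θ => FF_rot u σ ε r₀ R₁ n z θ
    rw [e]
    have h7 : HasDerivAt (fun θ : ℝ => Complex.exp (θ * Complex.I) * z.fst * u)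
        (Complex.I * z.fst * u) 0 := by
      have h2 : HasDerivAt (fun θ : ℝ => (θ : ℂ) * Complex.I) Complex.I 0 := by
        have := (Complex.ofRealCLM.hasDerivAt (x := (0 : ℝ))).mul_const Complex.I
        simpa using this
      have h3 := ((h2.cexp).mul_const z.fst).mul_const u
      simpa using h3
    have h8 : HasDerivAt (fun θ : ℝ => (Complex.exp (θ * Complex.I) * z.fst * u).im)
        (Complex.I * z.fst * u).im 0 := Complex.imCLM.hasFDerivAt.comp_hasDerivAt (0 : ℝ) h7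
    have h9 : (Complex.I * z.fst * u).im = (z.fst * u).re := by
      rw [mul_assoc, Complex.I_mul_im]
    rw [h9] at h8
    have h10 := h8.div_const (σ * ‖z.fst‖)
    have h11 : HasDerivAt so (kk (((z.fst * u).im / (σ * ‖z.fst‖) + 1) / 2))
        ((Complex.exp (((0 : ℝ) : ℂ) * Complex.I) * z.fst * u).im / (σ * ‖z.fst‖)) := by
      have := hasDerivAt_so ((Complex.exp (((0 : ℝ) : ℂ) * Complex.I) * z.fst * u).im /
        (σ * ‖z.fst‖))
      simpa using this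
    have h12 := ((h11.comp (0 : ℝ) h10).const_mul (eta ε r₀ R₁ n z)).div_const ‖z.fst‖
    refine h12.congr_deriv ?_
    ring
  exact h3.unique h6

end Pool.Agent.N271.Cone
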