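import Pool.Agent.N271.Cone.T4a

set_option autoImplicit false

/-! # T4: the planar integral -/

namespace Pool.Agent.N271.Cone

open MeasureTheory Set Metric Filter Topology Pool.Agent.TH703.Cone
open scoped ENNReal InnerProductSpace

/-- the positive part of the density of the divergence -/
noncomputable def kp (σ : ℝ) (x : ℂ) : ℝ :=
  kk ((x.im / (σ * ‖x‖) + 1) / 2) * (max x.re 0 / (σ * ‖x‖)) / ‖x‖

theorem kp_nonneg {σ : ℝ} (hσ : 0 < σ) (x : ℂ) : 0 ≤ kp σ x := by
  unfold kp
  have := kk_nonneg ((x.im / (σ * ‖x‖) + 1) / 2)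
  positivity

theorem measurable_kp (σ : ℝ) : Measurable (kp σ) := by
  unfold kp
  have h1 := continuous_kk.measurable
  have h2 : Measurable fun x : ℂ => kk ((x.im / (σ * ‖x‖) + 1) / 2) := by
    refine h1.comp ?_
    exact ((Complex.measurable_im.div (measurable_const.mul measurable_norm)).add_const 1).div_const 2
  exact (h2.mul ((Complex.measurable_re.max measurable_const).div
    (measurable_const.mul measurable_norm))).div measurable_norm

theorem so_of_ge {t : ℝ} (h : 1 ≤ t) : so t = 1 := by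
  unfold so
  rw [sg_of_one_le (by linarith)]; norm_num

theorem so_of_le {t : ℝ} (h : t ≤ -1) : so t = -1 := by
  unfold so
  rw [sg_of_nonpos (by linarith)]; norm_num

/-- the angular integral -/
theorem lint_angle {σ : ℝ} (hσ : 0 < σ) (hσ2 : σ ≤ 1 / 2) :
    ∫⁻ α in Ioo (-Real.pi) Real.pi, ENNReal.ofReal
      (kk ((Real.sin α / σ + 1) / 2) * (max (Real.cos α) 0 / σ)) = 2 := by
  have hpi := Real.pi_pos
  have h1 : ∫⁻ α in Ioo (-Real.pi) Real.pi, ENNReal.ofReal
      (kk ((Real.sin α / σ + 1) / 2) * (max (Real.cos α) 0 / σ)) =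
      ∫⁻ α in Ioc (-(Real.pi / 2)) (Real.pi / 2), ENNReal.ofReal
      (kk ((Real.sin α / σ + 1) / 2) * (max (Real.cos α) 0 / σ)) := by
    rw [← lintegral_indicator measurableSet_Ioo, ← lintegral_indicator measurableSet_Ioc]
    congr 1
    ext α
    by_cases h0 : α ∈ Ioc (-(Real.pi / 2)) (Real.pi / 2)
    · rw [indicator_of_mem h0, indicator_of_mem]
      exact ⟨by linarith [h0.1], by linarith [h0.2]⟩
    · rw [indicator_of_notMem h0]
      by_cases h2 : α ∈ Ioo (-Real.pi) Real.pi
      · rw [indicator_of_mem h2]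
        have h3 : Real.cos α ≤ 0 := by
          rw [mem_Ioc, not_and_or, not_lt, not_le] at h0
          rcases h0 with h0 | h0
          · rw [← Real.cos_neg]
            apply Real.cos_nonpos_of_pi_div_two_le_of_le <;> linarith [h2.1]
          · apply Real.cos_nonpos_of_pi_div_two_le_of_le <;> linarith [h2.2]
        rw [max_eq_right h3]
        simp
      · rw [indicator_of_notMem h2]
  rw [h1, ← ofReal_integral_eq_lintegral_ofReal]
  · rw [← intervalIntegral.integral_of_le (by linarith)]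
    have h2 : ∀ α : ℝ, HasDerivAt (fun α => so (Real.sin α / σ))
        (kk ((Real.sin α / σ + 1) / 2) * (Real.cos α / σ)) α := by
      intro α
      exact (hasDerivAt_so _).comp α ((Real.hasDerivAt_sin α).div_const σ)
    have h3 : ∫ α in (-(Real.pi / 2))..(Real.pi / 2),
        kk ((Real.sin α / σ + 1) / 2) * (max (Real.cos α) 0 / σ) =
        ∫ α in (-(Real.pi / 2))..(Real.pi / 2),
        kk ((Real.sin α / σ + 1) / 2) * (Real.cos α / σ) := by
      refine intervalIntegral.integral_congr fun α hα => ?_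
      rw [uIcc_of_le (by linarith)] at hα
      rw [max_eq_left (Real.cos_nonneg_of_mem_Icc hα)]
    rw [h3, intervalIntegral.integral_eq_sub_of_hasDerivAt (fun x _ => h2 x)]
    · rw [Real.sin_neg, Real.sin_pi_div_two, so_of_ge, so_of_le]
      · norm_num
      · rw [neg_div, neg_le_neg_iff, le_div_iff₀ hσ]; linarith
      · rw [le_div_iff₀ hσ]; linarith
    · have := continuous_kk
      exact Continuous.intervalIntegrable (by fun_prop) _ _
  · rw [← IntegrableOn, ← intervalIntegrable_iff_integrableOn_Ioc_of_le (by linarith)]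
    have := continuous_kk
    exact Continuous.intervalIntegrable (by fun_prop) _ _
  · refine Eventually.of_forall fun α => ?_
    have := kk_nonneg ((Real.sin α / σ + 1) / 2)
    change 0 ≤ kk ((Real.sin α / σ + 1) / 2) * (max (Real.cos α) 0 / σ)
    positivity

/-- the planar integral in polar coordinates -/
theorem lint_plane {σ : ℝ} (hσ : 0 < σ) (hσ2 : σ ≤ 1 / 2) (h : ℝ → ℝ≥0∞) (hh : Measurable h) :
    ∫⁻ x : ℂ, h ‖x‖ * ENNReal.ofReal (kp σ x) = 2 * ∫⁻ ρ in Ioi (0 : ℝ), h ρ := by
  rw [← Complex.lintegral_comp_polarCoord_symm]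
  rw [polarCoord_target, Measure.volume_eq_prod, setLIntegral_prod]
  · have h2 : ∀ ρ ∈ Ioi (0 : ℝ), ∫⁻ α in Ioo (-Real.pi) Real.pi,
        ENNReal.ofReal ρ • (h ‖Complex.polarCoord.symm (ρ, α)‖ *
          ENNReal.ofReal (kp σ (Complex.polarCoord.symm (ρ, α)))) = 2 * h ρ := by
      intro ρ hρ
      have hρ' : (0 : ℝ) < ρ := hρ
      have h3 : ∀ α : ℝ, ENNReal.ofReal ρ • (h ‖Complex.polarCoord.symm (ρ, α)‖ *
          ENNReal.ofReal (kp σ (Complex.polarCoord.symm (ρ, α)))) = h ρ * ENNReal.ofReal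
          (kk ((Real.sin α / σ + 1) / 2) * (max (Real.cos α) 0 / σ)) := by
        intro α
        have e1 : ‖Complex.polarCoord.symm (ρ, α)‖ = ρ := by
          rw [Complex.norm_polarCoord_symm, abs_of_pos hρ']
        have e2 : (Complex.polarCoord.symm (ρ, α)).re = ρ * Real.cos α := by
          rw [Complex.polarCoord_symm_apply, Complex.re_ofReal_mul, Complex.add_re,
            Complex.re_ofReal_mul, Complex.ofReal_re, Complex.I_re, mul_zero, add_zero]
        have e3 : (Complex.polarCoord.symm (ρ, α)).im = ρ * Real.sin α := by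
          rw [Complex.polarCoord_symm_apply, Complex.im_ofReal_mul, Complex.add_im,
            Complex.im_ofReal_mul, Complex.ofReal_im, Complex.I_im, mul_one, zero_add]
        unfold kp
        rw [e1, e2, e3, smul_eq_mul, mul_left_comm, ← ENNReal.ofReal_mul hρ'.le]
        congr 2
        have e4 : ρ * Real.sin α / (σ * ρ) = Real.sin α / σ := by
          field_simp
        have e5 : max (ρ * Real.cos α) 0 = ρ * max (Real.cos α) 0 := by
          rw [mul_max_of_nonneg _ _ hρ'.le, mul_zero]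
        rw [e4, e5]
        field_simp
      simp_rw [h3]
      rw [lintegral_const_mul, lint_angle hσ hσ2, mul_comm]
      have := continuous_kk
      exact (Continuous.measurable (by fun_prop)).ennreal_ofReal
    rw [setLIntegral_congr_fun measurableSet_Ioi h2, lintegral_const_mul _ hh]
  · refine Measurable.aemeasurable ?_
    have hc : Measurable fun p : ℝ × ℝ => Complex.polarCoord.symm p := by
      have h : (fun p : ℝ × ℝ => Complex.polarCoord.symm p) = fun p : ℝ × ℝ =>
          (p.1 : ℂ) * (Real.cos p.2 + Real.sin p.2 * Complex.I) := by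
        ext p
        rw [Complex.polarCoord_symm_apply]
      rw [h]
      exact Continuous.measurable (by fun_prop)
    refine (ENNReal.measurable_ofReal.comp measurable_fst).smul ?_
    exact (hh.comp hc.norm).mul (((measurable_kp σ).comp hc).ennreal_ofReal)

/-- rotation invariance -/
theorem lint_rot {u : ℂ} (hu : ‖u‖ = 1) (G : ℂ → ℝ≥0∞) :
    ∫⁻ x : ℂ, G (x * u) = ∫⁻ x : ℂ, G x := by
  have hmem : u ∈ Submonoid.unitSphere ℂ := mem_sphere_zero_iff_norm.2 hu
  let c : Circle := (⟨u, hmem⟩ : Submonoid.unitSphere ℂ)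
  set T : ℂ ≃ₗᵢ[ℝ] ℂ := rotation c with hT
  have h1 : ∀ x, T x = x * u := by
    intro x
    rw [hT, rotation_apply, mul_comm]
  have h2 := T.measurePreserving.lintegral_comp_emb T.toMeasurableEquiv.measurableEmbedding G
  rw [← h2]
  simp_rw [h1]

/-- the weighted integral over the body -/
theorem lint_kp_Om {b : ℕ} {ε r₀ R₁ σ : ℝ} {u : ℂ} (hu : ‖u‖ = 1) (hb : 1 ≤ b) (hε : 0 < ε)
    (hσ : 0 < σ) (hσ2 : σ ≤ 1 / 2) (hr₀ : 0 < r₀) (hrR : r₀ < R₁) (hR : R₁ < 1) :
    ∫⁻ z in Om b ε, (Ioo r₀ R₁).indicator (fun _ => (1 : ℝ≥0∞)) ‖z.fst‖ *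
      ENNReal.ofReal (kp σ (z.fst * u)) =
      ENNReal.ofReal (vb b ε * (2 * ∫ ρ in r₀..R₁, (1 - ρ) ^ b)) := by
  have hm1 : Measurable fun x : ℂ => (Ioo r₀ R₁).indicator (fun _ => (1 : ℝ≥0∞)) ‖x‖ :=
    (measurable_const.indicator measurableSet_Ioo).comp measurable_norm
  have hm2 : Measurable fun x : ℂ => ENNReal.ofReal (kp σ (x * u)) :=
    ((measurable_kp σ).comp (measurable_id.mul_const u)).ennreal_ofReal
  rw [t7a b ε hb hε (fun x => (Ioo r₀ R₁).indicator (fun _ => (1 : ℝ≥0∞)) ‖x‖ *
      ENNReal.ofReal (kp σ (x * u))) (hm1.mul hm2), ENNReal.ofReal_mul (vb_pos hε).le]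
  congr 1
  have h1 : ∫⁻ x in ball (0 : ℂ) 1, (Ioo r₀ R₁).indicator (fun _ => (1 : ℝ≥0∞)) ‖x‖ *
      ENNReal.ofReal (kp σ (x * u)) * ENNReal.ofReal ((1 - ‖x‖) ^ b) =
      ∫⁻ x : ℂ, (fun x => (Ioo r₀ R₁).indicator (fun ρ => ENNReal.ofReal ((1 - ρ) ^ b)) ‖x‖ *
        ENNReal.ofReal (kp σ x)) (x * u) := by
    rw [← lintegral_indicator measurableSet_ball]
    congr 1
    ext x
    simp only
    rw [norm_mul, hu, mul_one]
    by_cases hx : ‖x‖ ∈ Ioo r₀ R₁
    · rw [indicator_of_mem, indicator_of_mem hx, indicator_of_mem hx, one_mul, mul_comm]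
      rw [mem_ball, dist_zero_right]
      exact hx.2.trans hR
    · rw [indicator_of_notMem hx]
      by_cases h2 : x ∈ ball (0 : ℂ) 1
      · rw [indicator_of_mem h2, indicator_of_notMem hx]; simp
      · rw [indicator_of_notMem h2]; simp
  rw [h1, lint_rot hu (fun x => (Ioo r₀ R₁).indicator (fun ρ => ENNReal.ofReal ((1 - ρ) ^ b)) ‖x‖ *
        ENNReal.ofReal (kp σ x)), lint_plane hσ hσ2]
  · rw [ENNReal.ofReal_mul (by norm_num)]
    have e2 : ENNReal.ofReal 2 = 2 := by simp
    rw [e2]
    congr 1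
    rw [intervalIntegral.integral_of_le hrR.le, ofReal_integral_eq_lintegral_ofReal]
    · rw [← lintegral_indicator measurableSet_Ioi, ← lintegral_indicator measurableSet_Ioc]
      refine lintegral_congr_ae ?_
      have hne : ∀ᵐ ρ : ℝ, ρ ≠ R₁ := by
        have : (volume : Measure ℝ) {R₁} = 0 := by simp
        rw [ae_iff]
        convert this using 2
        ext x
        simp
      filter_upwards [hne] with ρ hρ
      by_cases h2 : ρ ∈ Ioo r₀ R₁
      · rw [indicator_of_mem (show ρ ∈ Ioi (0 : ℝ) from hr₀.trans h2.1), indicator_of_mem h2,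
          indicator_of_mem (show ρ ∈ Ioc r₀ R₁ from ⟨h2.1, h2.2.le⟩)]
      · have h3 : ρ ∉ Ioc r₀ R₁ := fun h => h2 ⟨h.1, lt_of_le_of_ne h.2 hρ⟩
        rw [indicator_of_notMem h3]
        by_cases h4 : ρ ∈ Ioi (0 : ℝ)
        · rw [indicator_of_mem h4, indicator_of_notMem h2]
        · rw [indicator_of_notMem h4]
    · rw [← IntegrableOn, ← intervalIntegrable_iff_integrableOn_Ioc_of_le hrR.le]
      exact Continuous.intervalIntegrable (by fun_prop) _ _
    · filter_upwards [ae_restrict_mem measurableSet_Ioc] with ρ hρ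
      have : 0 ≤ 1 - ρ := by linarith [hρ.2]
      simp only [Pi.zero_apply]
      positivity
  · refine Measurable.indicator ?_ measurableSet_Ioo
    exact Continuous.measurable (by fun_prop) |>.ennreal_ofReal

end Pool.Agent.N271.Cone
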