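import Pool.Agent.N271.Cone.T5

set_option autoImplicit false

/-! # Second moments and slabs of `Om b 1` -/

namespace Pool.Agent.N271.Cone

open MeasureTheory Set Metric Filter Topology Pool.Agent.TH703.Cone
open scoped ENNReal InnerProductSpace

theorem Om_fin (b : ℕ) {ε : ℝ} (hε : 0 < ε) : volume (Om b ε) ≠ ⊤ :=
  (isBounded_Om b hε).measure_lt_top.ne

theorem integrableOn_Om {b : ℕ} {f : W b → ℝ} (hf : Continuous f) :
    IntegrableOn f (Om b 1) :=
  (hf.continuousOn.integrableOn_compact ((isBounded_Om b one_pos).isCompact_closure)).mono_set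
    subset_closure

theorem mom_inv {b : ℕ} (v w : B b) (h : ‖v‖ = ‖w‖) :
    ∫ z in Om b 1, ⟪z.snd, v⟫_ℝ ^ 2 = ∫ z in Om b 1, ⟪z.snd, w⟫_ℝ ^ 2 := by
  set R : B b ≃ₗᵢ[ℝ] B b := (ℝ ∙ (v - w))ᗮ.reflection with hR
  have hRv : R v = w := Submodule.reflection_sub h
  set T : W b ≃ₗᵢ[ℝ] W b :=
    LinearIsometryEquiv.withLpProdCongr 2 (LinearIsometryEquiv.refl ℝ ℂ) R with hT
  have hTf : ∀ z, (T z).fst = z.fst := fun z => rfl
  have hTs : ∀ z, (T z).snd = R z.snd := fun z => rfl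
  have hmp := T.measurePreserving
  have h1 : ∫ z in Om b 1, ⟪z.snd, w⟫_ℝ ^ 2 =
      ∫ z in T ⁻¹' (Om b 1), ⟪(T z).snd, w⟫_ℝ ^ 2 :=
    (hmp.setIntegral_preimage_emb T.toMeasurableEquiv.measurableEmbedding
      (fun z => ⟪z.snd, w⟫_ℝ ^ 2) (Om b 1)).symm
  rw [h1]
  have h2 : T ⁻¹' (Om b 1) = Om b 1 := by
    ext z
    simp only [Om, mem_preimage, mem_ofPred_eq, hTf, hTs, LinearIsometryEquiv.norm_map]
  rw [h2]
  congr 1
  ext z
  rw [hTs, ← hRv, LinearIsometryEquiv.inner_map_map]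

theorem second_moment {b : ℕ} (v : B b) (hv : ‖v‖ = 1) :
    (b : ℝ) * ∫ z in Om b 1, ⟪z.snd, v⟫_ℝ ^ 2 ≤ volume.real (Om b 1) := by
  have h1 : (b : ℝ) * ∫ z in Om b 1, ⟪z.snd, v⟫_ℝ ^ 2 =
      ∑ i : Fin b, ∫ z in Om b 1, ⟪z.snd, EuclideanSpace.basisFun (Fin b) ℝ i⟫_ℝ ^ 2 := by
    rw [Finset.sum_congr rfl fun i _ => mom_inv (EuclideanSpace.basisFun (Fin b) ℝ i) v (by
      rw [hv]; exact (EuclideanSpace.basisFun (Fin b) ℝ).norm_eq_one i)]
    simp
  rw [h1, ← integral_finsetSum]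
  · have h2 : ∀ z : W b, ∑ i : Fin b, ⟪z.snd, EuclideanSpace.basisFun (Fin b) ℝ i⟫_ℝ ^ 2 =
        ‖z.snd‖ ^ 2 := by
      intro z
      have := (EuclideanSpace.basisFun (Fin b) ℝ).sum_sq_inner_left z.snd
      rw [← this]
    simp_rw [h2]
    calc ∫ z in Om b 1, ‖z.snd‖ ^ 2 ≤ ∫ z in Om b 1, (1 : ℝ) := by
          refine setIntegral_mono_on ?_ ?_ (isOpen_Om b 1).measurableSet ?_
          · exact integrableOn_Om (by fun_prop)
          · exact integrableOn_const (Om_fin b one_pos)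
          · intro z hz
            have h3 : ‖z.fst‖ + ‖z.snd‖ / 1 < 1 := hz
            rw [div_one] at h3
            have h4 : ‖z.snd‖ ≤ 1 := by linarith [norm_nonneg z.fst]
            exact pow_le_one₀ (norm_nonneg _) h4
      _ = _ := by simp
  · intro i _
    exact integrableOn_Om (by fun_prop)

theorem vol_strip (t s : ℝ) (hs : 0 ≤ s) :
    volume {x : ℂ | |x.re - t| < s ∧ ‖x‖ < 1} ≤ ENNReal.ofReal (4 * s) := by
  have h1 : {x : ℂ | |x.re - t| < s ∧ ‖x‖ < 1} ⊆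
      Complex.measurableEquivRealProd ⁻¹' (Ioo (t - s) (t + s) ×ˢ Ioo (-1) 1) := by
    intro x hx
    obtain ⟨h1, h2⟩ := hx
    rw [abs_lt] at h1
    have h3 := (Complex.abs_im_le_norm x).trans_lt h2
    rw [abs_lt] at h3
    have h4 : t - s < x.re := by linarith [h1.1]
    have h5 : x.re < t + s := by linarith [h1.2]
    exact ⟨⟨h4, h5⟩, h3⟩
  refine (measure_mono h1).trans ?_
  rw [Complex.volume_preserving_equiv_real_prod.measure_preimage
    (measurableSet_Ioo.prod measurableSet_Ioo).nullMeasurableSet, Measure.volume_eq_prod,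
    Measure.prod_prod, Real.volume_Ioo, Real.volume_Ioo, ← ENNReal.ofReal_mul (by linarith)]
  apply ENNReal.ofReal_le_ofReal
  linarith

/-- the first basis vector -/
noncomputable def e1 (b : ℕ) : W b := WithLp.toLp 2 (1, 0)

theorem inner_e1 {b : ℕ} (z : W b) : ⟪z, e1 b⟫_ℝ = z.fst.re := by
  unfold e1
  rw [WithLp.prod_inner_apply]
  simp

theorem norm_e1 (b : ℕ) : ‖e1 b‖ = 1 := by
  have h4 : ‖e1 b‖ ^ 2 = ‖(1 : ℂ)‖ ^ 2 + ‖(0 : B b)‖ ^ 2 := WithLp.prod_norm_sq_eq_of_L2 (e1 b)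
  rw [norm_zero, norm_one, zero_pow two_ne_zero, add_zero] at h4
  exact (pow_left_inj₀ (norm_nonneg _) zero_le_one two_ne_zero).1 h4

theorem vol_slab_e1 (b : ℕ) (t s : ℝ) (hs : 0 ≤ s) :
    volume {z : W b | |z.fst.re - t| < s ∧ ‖z‖ < 1} ≤ ENNReal.ofReal (4 * s * vb b 1) := by
  set A := {z : W b | |z.fst.re - t| < s ∧ ‖z‖ < 1} with hA
  have hAm : MeasurableSet A := by
    have h1 : Continuous fun z : W b => |z.fst.re - t| := by
      have : Continuous fun z : W b => z.fst := by fun_prop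
      fun_prop
    exact (isOpen_lt h1 continuous_const).measurableSet.inter
      (isOpen_lt continuous_norm continuous_const).measurableSet
  have h1 := lint_set hAm (fun _ => (1 : ℝ≥0∞)) measurable_const
  simp only [setLIntegral_const, one_mul] at h1
  rw [h1]
  have h2 : ∀ x : ℂ, volume (fib A x) ≤ {x : ℂ | |x.re - t| < s ∧ ‖x‖ < 1}.indicator
      (fun _ => ENNReal.ofReal (vb b 1)) x := by
    intro x
    by_cases hx : x ∈ {x : ℂ | |x.re - t| < s ∧ ‖x‖ < 1}
    · rw [indicator_of_mem hx, ofReal_vb]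
      refine measure_mono ?_
      intro y hy
      have h3 : ‖(WithLp.toLp 2 (x, y) : W b)‖ < 1 := hy.2
      have h4 : ‖(WithLp.toLp 2 (x, y) : W b)‖ ^ 2 = ‖x‖ ^ 2 + ‖y‖ ^ 2 :=
        WithLp.prod_norm_sq_eq_of_L2 _
      rw [mem_ball, dist_zero_right]
      nlinarith [norm_nonneg x, norm_nonneg y, norm_nonneg (WithLp.toLp 2 (x, y) : W b)]
    · rw [indicator_of_notMem hx]
      have : fib A x = ∅ := by
        rw [eq_empty_iff_forall_notMem]
        intro y hy
        apply hx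
        refine ⟨hy.1, ?_⟩
        have h3 : ‖(WithLp.toLp 2 (x, y) : W b)‖ < 1 := hy.2
        have h4 := norm_fst_le (WithLp.toLp 2 (x, y) : W b)
        exact lt_of_le_of_lt h4 h3
      rw [this]; simp
  refine (lintegral_mono h2).trans ?_
  have hm : MeasurableSet {x : ℂ | |x.re - t| < s ∧ ‖x‖ < 1} := by
    have h1 : Continuous fun x : ℂ => |x.re - t| := by fun_prop
    exact (isOpen_lt h1 continuous_const).measurableSet.inter
      (isOpen_lt continuous_norm continuous_const).measurableSet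
  rw [lintegral_indicator hm, setLIntegral_const, mul_comm]
  calc _ ≤ ENNReal.ofReal (4 * s) * ENNReal.ofReal (vb b 1) := by
        gcongr
        exact vol_strip t s hs
    _ = _ := by rw [← ENNReal.ofReal_mul (by positivity)]

theorem vol_slab (b : ℕ) (ν : W b) (hν : ‖ν‖ = 1) (t s : ℝ) (hs : 0 ≤ s) :
    volume {z : W b | |⟪z, ν⟫_ℝ - t| < s ∧ ‖z‖ < 1} ≤ ENNReal.ofReal (4 * s * vb b 1) := by
  set R : W b ≃ₗᵢ[ℝ] W b := (ℝ ∙ (e1 b - ν))ᗮ.reflection with hR
  have hRv : R (e1 b) = ν := Submodule.reflection_sub (by rw [norm_e1, hν])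
  have hmp := R.measurePreserving
  have hAm : MeasurableSet {z : W b | |⟪z, ν⟫_ℝ - t| < s ∧ ‖z‖ < 1} := by
    have h1 : Continuous fun z : W b => |⟪z, ν⟫_ℝ - t| := by fun_prop
    exact (isOpen_lt h1 continuous_const).measurableSet.inter
      (isOpen_lt continuous_norm continuous_const).measurableSet
  rw [← hmp.measure_preimage hAm.nullMeasurableSet]
  refine le_trans (le_of_eq ?_) (vol_slab_e1 b t s hs)
  congr 1
  ext z
  simp only [mem_preimage, mem_ofPred_eq, LinearIsometryEquiv.norm_map]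
  rw [← hRv, LinearIsometryEquiv.inner_map_map, inner_e1]

end Pool.Agent.N271.Cone
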