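import Pool.Agent.N271.Cone.T6a

set_option autoImplicit false

/-! # The barycentre of a convex piece of `Om b 1` -/

namespace Pool.Agent.N271.Cone

open MeasureTheory Set Metric Filter Topology Pool.Agent.TH703.Cone
open scoped ENNReal InnerProductSpace

theorem norm_lt_of_Om {b : ℕ} {z : W b} (hz : z ∈ Om b 1) : ‖z‖ < 1 := by
  have h : ‖z.fst‖ + ‖z.snd‖ / 1 < 1 := hz
  rw [div_one] at h
  have h4 := WithLp.prod_norm_sq_eq_of_L2 z
  nlinarith [norm_nonneg z.fst, norm_nonneg z.snd, norm_nonneg z]

section bary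

variable {b : ℕ} {S : Set (W b)}

/-- the barycentre -/
noncomputable def bar (S : Set (W b)) : W b := (volume.real S)⁻¹ • ∫ z in S, z

theorem integrableOn_sub (hS : S ⊆ Om b 1) {f : W b → ℝ} (hf : Continuous f) :
    IntegrableOn f S := (integrableOn_Om hf).mono_set hS

theorem integrableOn_id (hS : S ⊆ Om b 1) : IntegrableOn (fun z : W b => z) S :=
  ((continuous_id.continuousOn.integrableOn_compact
    ((isBounded_Om b one_pos).isCompact_closure)).mono_set subset_closure).mono_set hS

theorem real_mul_bar (hS : S ⊆ Om b 1) (hpos : 0 < volume.real S) (L : W b →L[ℝ] ℝ) :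
    volume.real S * L (bar S) = ∫ z in S, L z := by
  unfold bar
  rw [map_smul, smul_eq_mul, mul_inv_cancel_left₀ hpos.ne']
  exact (ContinuousLinearMap.integral_comp_comm L (integrableOn_id hS)).symm

theorem bar_ge (hS : S ⊆ Om b 1) (hm : MeasurableSet S) (hpos : 0 < volume.real S)
    (L : W b →L[ℝ] ℝ) {t : ℝ} (h : ∀ z ∈ S, t ≤ L z) : t ≤ L (bar S) := by
  have h1 := real_mul_bar hS hpos L
  have h2 : ∫ z in S, t ≤ ∫ z in S, L z := by
    refine setIntegral_mono_on ?_ (integrableOn_sub hS L.continuous) hm h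
    exact integrableOn_const ((measure_mono hS).trans_lt (Om_fin b one_pos).lt_top).ne
  have h3 : ∫ z in S, t = volume.real S * t := by
    simp
  rw [h3, ← h1] at h2
  exact le_of_mul_le_mul_left h2 hpos

/-- Jensen for the square -/
theorem bar_sq (hS : S ⊆ Om b 1) (hpos : 0 < volume.real S)
    (L : W b →L[ℝ] ℝ) : volume.real S * (L (bar S)) ^ 2 ≤ ∫ z in S, (L z) ^ 2 := by
  have h1 := real_mul_bar hS hpos L
  have h2 : 0 ≤ ∫ z in S, (L z - L (bar S)) ^ 2 := integral_nonneg fun z => sq_nonneg _
  have h3 : ∫ z in S, (L z - L (bar S)) ^ 2 = (∫ z in S, (L z) ^ 2) -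
      2 * L (bar S) * (∫ z in S, L z) + volume.real S * (L (bar S)) ^ 2 := by
    have e : ∀ z, (L z - L (bar S)) ^ 2 = (L z) ^ 2 - 2 * L (bar S) * L z + (L (bar S)) ^ 2 := by
      intro z; ring
    simp_rw [e]
    have i1 : IntegrableOn (fun z => (L z) ^ 2) S := integrableOn_sub hS (L.continuous.pow 2)
    have i2 : IntegrableOn (fun z => 2 * L (bar S) * L z) S :=
      integrableOn_sub hS (continuous_const.mul L.continuous)
    have i3 : IntegrableOn (fun _ : W b => (L (bar S)) ^ 2) S :=
      integrableOn_sub hS continuous_const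
    have i12 : IntegrableOn (fun z => (L z) ^ 2 - 2 * L (bar S) * L z) S := i1.sub i2
    rw [integral_add i12 i3, integral_sub i1 i2, integral_const_mul]
    simp
  rw [h3, ← h1] at h2
  nlinarith

theorem bar_snd (hS : S ⊆ Om b 1) (hpos : 0 < volume.real S) :
    (b : ℝ) * volume.real S * ‖(bar S).snd‖ ^ 2 ≤ volume.real (Om b 1) := by
  by_cases h0 : (bar S).snd = 0
  · rw [h0]; simp
  · have hn : 0 < ‖(bar S).snd‖ := norm_pos_iff.2 h0
    set v : B b := (‖(bar S).snd‖)⁻¹ • (bar S).snd with hv
    have hv1 : ‖v‖ = 1 := by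
      rw [hv, norm_smul, norm_inv, norm_norm, inv_mul_cancel₀ hn.ne']
    set L : W b →L[ℝ] ℝ := (innerSL ℝ v).comp (WithLp.sndL 2 ℝ ℂ (B b)) with hL
    have hLz : ∀ z, L z = ⟪z.snd, v⟫_ℝ := by
      intro z
      rw [real_inner_comm]; rfl
    have h1 := bar_sq hS hpos L
    have h2 : L (bar S) = ‖(bar S).snd‖ := by
      rw [hLz, hv, inner_smul_right, real_inner_self_eq_norm_sq]
      field_simp
    have h3 := second_moment v hv1
    have h4 : ∫ z in S, (L z) ^ 2 ≤ ∫ z in Om b 1, ⟪z.snd, v⟫_ℝ ^ 2 := by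
      simp_rw [hLz]
      refine setIntegral_mono_set (integrableOn_Om (by fun_prop))
        (Eventually.of_forall fun z => sq_nonneg _) (LE.le.eventuallyLE hS)
    rw [h2] at h1
    have hb : (0 : ℝ) ≤ b := Nat.cast_nonneg b
    calc (b : ℝ) * volume.real S * ‖(bar S).snd‖ ^ 2
        = b * (volume.real S * ‖(bar S).snd‖ ^ 2) := by ring
      _ ≤ b * ∫ z in Om b 1, ⟪z.snd, v⟫_ℝ ^ 2 := by
          apply mul_le_mul_of_nonneg_left (h1.trans h4) hb
      _ ≤ _ := h3

/-- a ball around the barycentre is contained in every open convex set containing `S` -/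
theorem bar_ball (hS : S ⊆ Om b 1) (hm : MeasurableSet S) (hpos : 0 < volume.real S) {δ : ℝ}
    (hδ : 0 < δ) (hvol : 32 * δ * vb b 1 < volume.real S) {G : Set (W b)} (hGo : IsOpen G)
    (hGc : Convex ℝ G) (hSG : S ⊆ G) : ball (bar S) δ ⊆ G := by
  intro p hp
  by_contra hpG
  obtain ⟨f, hf⟩ := geometric_hahn_banach_open_point hGc hGo hpG
  set ν₀ : W b := (InnerProductSpace.toDual ℝ (W b)).symm f with hν₀
  have hfν : ∀ z, f z = ⟪z, ν₀⟫_ℝ := by
    intro z
    rw [real_inner_comm, hν₀, InnerProductSpace.toDual_symm_apply]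
  have hSne : S.Nonempty := by
    rw [nonempty_iff_ne_empty]
    rintro rfl
    simp at hpos
  have hν0 : ν₀ ≠ 0 := by
    intro h0
    obtain ⟨a, ha⟩ := hSne
    have h1 := hf a (hSG ha)
    rw [hfν, hfν, h0, inner_zero_right, inner_zero_right] at h1
    exact lt_irrefl _ h1
  have hn : 0 < ‖ν₀‖ := norm_pos_iff.2 hν0
  set ν : W b := (‖ν₀‖)⁻¹ • ν₀ with hν
  have hν1 : ‖ν‖ = 1 := by
    rw [hν, norm_smul, norm_inv, norm_norm, inv_mul_cancel₀ hn.ne']
  have hlt : ∀ a ∈ S, ⟪a, ν⟫_ℝ < ⟪p, ν⟫_ℝ := by
    intro a ha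
    have h1 := hf a (hSG ha)
    rw [hfν, hfν] at h1
    rw [hν, inner_smul_right, inner_smul_right]
    have : 0 < ‖ν₀‖⁻¹ := inv_pos.2 hn
    exact mul_lt_mul_of_pos_left h1 this
  set L : W b →L[ℝ] ℝ := innerSL ℝ ν with hL
  have hLz : ∀ z, L z = ⟪z, ν⟫_ℝ := fun z => by rw [real_inner_comm]; rfl
  set t : ℝ := L (bar S) with ht
  have hpt : ⟪p, ν⟫_ℝ < t + δ := by
    have h1 : ⟪p - bar S, ν⟫_ℝ ≤ ‖p - bar S‖ * ‖ν‖ := real_inner_le_norm _ _
    rw [hν1, mul_one, inner_sub_left] at h1
    rw [mem_ball, dist_eq_norm] at hp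
    rw [ht, hLz]
    linarith
  have hub : ∀ a ∈ S, L a - t ≤ δ := by
    intro a ha
    have := hlt a ha
    rw [hLz]
    linarith
  have hmean : ∫ z in S, (L z - t) = 0 := by
    rw [integral_sub (integrableOn_sub hS L.continuous) (integrableOn_sub hS continuous_const),
      ← real_mul_bar hS hpos L]
    simp [ht]
  -- the absolute first moment
  have habs : ∫ z in S, |L z - t| ≤ 2 * δ * volume.real S := by
    have h1 : ∀ z ∈ S, |L z - t| ≤ 2 * δ - (L z - t) := by
      intro z hz
      have := hub z hz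
      rw [abs_le]
      constructor <;> linarith
    have i1 : IntegrableOn (fun z => |L z - t|) S :=
      integrableOn_sub hS ((L.continuous.sub continuous_const).abs)
    have i2 : IntegrableOn (fun z => L z - t) S :=
      integrableOn_sub hS (L.continuous.sub continuous_const)
    have i3 : IntegrableOn (fun _ : W b => 2 * δ) S := integrableOn_sub hS continuous_const
    calc ∫ z in S, |L z - t| ≤ ∫ z in S, (2 * δ - (L z - t)) :=
          setIntegral_mono_on i1 (i3.sub i2) hm h1
      _ = 2 * δ * volume.real S := by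
          rw [integral_sub i3 i2, hmean]
          simp
          ring
  -- Markov
  set T : Set (W b) := {z | |⟪z, ν⟫_ℝ - t| < 4 * δ ∧ ‖z‖ < 1} with hT
  have hTm : MeasurableSet T := by
    have h1 : Continuous fun z : W b => |⟪z, ν⟫_ℝ - t| := by fun_prop
    exact (isOpen_lt h1 continuous_const).measurableSet.inter
      (isOpen_lt continuous_norm continuous_const).measurableSet
  have hSfin : volume S ≠ ⊤ := ((measure_mono hS).trans_lt (Om_fin b one_pos).lt_top).ne
  have hout : 4 * δ * volume.real (S \ T) ≤ 2 * δ * volume.real S := by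
    have i1 : IntegrableOn (fun z => |L z - t|) S :=
      integrableOn_sub hS ((L.continuous.sub continuous_const).abs)
    calc 4 * δ * volume.real (S \ T) = ∫ z in S \ T, (4 * δ) := by simp; ring
      _ ≤ ∫ z in S \ T, |L z - t| := by
          refine setIntegral_mono_on ?_ (i1.mono_set sdiff_subset) (hm.diff hTm) ?_
          · exact (integrableOn_sub hS continuous_const).mono_set sdiff_subset
          · rintro z ⟨hz, hzT⟩
            by_contra hcon
            push Not at hcon
            apply hzT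
            refine ⟨?_, norm_lt_of_Om (hS hz)⟩
            rw [← hLz]; exact hcon
      _ ≤ ∫ z in S, |L z - t| := by
          refine setIntegral_mono_set i1 (Eventually.of_forall fun z => abs_nonneg _)
            (LE.le.eventuallyLE sdiff_subset)
      _ ≤ _ := habs
  have hTvol : volume.real T ≤ 16 * δ * vb b 1 := by
    have h1 := vol_slab b ν hν1 t (4 * δ) (by positivity)
    have h2 := ENNReal.toReal_mono ENNReal.ofReal_ne_top h1
    have := vb_pos (b := b) one_pos
    rw [ENNReal.toReal_ofReal (by positivity)] at h2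
    calc volume.real T ≤ _ := h2
      _ = _ := by ring
  have hsplit : volume.real S ≤ volume.real T + volume.real (S \ T) := by
    have hTfin : volume T ≠ ⊤ := by
      have h1 := vol_slab b ν hν1 t (4 * δ) (by positivity)
      exact ne_top_of_le_ne_top ENNReal.ofReal_ne_top h1
    calc volume.real S ≤ volume.real (T ∪ (S \ T)) := by
          refine measureReal_mono ?_ ?_
          · rw [union_sdiff_self]; exact subset_union_right
          · exact (measure_union_lt_top hTfin.lt_top
              ((measure_mono sdiff_subset).trans_lt hSfin.lt_top)).ne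
      _ ≤ _ := measureReal_union_le _ _
  have h5 : volume.real (S \ T) ≤ volume.real S / 2 := by
    have : 4 * δ * volume.real (S \ T) ≤ 4 * δ * (volume.real S / 2) := by linarith
    exact le_of_mul_le_mul_left this (by positivity)
  linarith

end bary

end Pool.Agent.N271.Cone
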