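import Pool.Agent.N271.Cone.T6b

set_option autoImplicit false

/-! # Cones of volume at least `c |Om b 1|` -/

namespace Pool.Agent.N271.Cone

open MeasureTheory Set Metric Filter Topology Pool.Agent.TH703.Cone
open scoped ENNReal InnerProductSpace

theorem real_Om (b : ℕ) (hb : 1 ≤ b) :
    volume.real (Om b 1) = vb b 1 * (2 * Real.pi * (1 / (((b : ℝ) + 1) * (b + 2)))) := by
  have h := vol_Om b 1 hb one_pos
  unfold Measure.real
  rw [h, HH_one, ENNReal.toReal_ofReal]
  have := vb_pos (b := b) one_pos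
  positivity

theorem HH_le (b : ℕ) {r : ℝ} (h0 : 0 ≤ r) (h1 : r ≤ 1) : HH b r ≤ r ^ 2 / 2 := by
  rw [← integral_HH]
  have h2 : ∫ ρ in (0 : ℝ)..r, ρ = r ^ 2 / 2 := by
    rw [integral_id]; ring
  rw [← h2]
  refine intervalIntegral.integral_mono_on h0 ?_ ?_ ?_
  · exact Continuous.intervalIntegrable (by fun_prop) _ _
  · exact Continuous.intervalIntegrable (by fun_prop) _ _
  · intro x hx
    have h3 : (1 - x) ^ b ≤ 1 := pow_le_one₀ (by linarith [hx.2]) (by linarith [hx.1])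
    calc x * (1 - x) ^ b ≤ x * 1 := mul_le_mul_of_nonneg_left h3 hx.1
      _ = x := mul_one _

/-- the quadrant pieces -/
def QS {b : ℕ} (G : Set (W b)) (r : ℝ) (v : ℂ) : Set (W b) :=
  {z | z ∈ Om b 1 ∧ z ∈ G ∧ 0 ≤ (z.fst * v).re ∧ 0 ≤ (z.fst * v).im ∧
    r ≤ (z.fst * v).re + (z.fst * v).im}

theorem quadrant (x : ℂ) : (0 ≤ (x * 1).re ∧ 0 ≤ (x * 1).im) ∨
    (0 ≤ (x * Complex.I).re ∧ 0 ≤ (x * Complex.I).im) ∨
    (0 ≤ (x * (-1)).re ∧ 0 ≤ (x * (-1)).im) ∨
    (0 ≤ (x * (-Complex.I)).re ∧ 0 ≤ (x * (-Complex.I)).im) := by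
  simp
  rcases le_total 0 x.re with h1 | h1 <;> rcases le_total 0 x.im with h2 | h2 <;> simp [h1, h2]

theorem norm_le_re_add_im {x : ℂ} (h1 : 0 ≤ x.re) (h2 : 0 ≤ x.im) : ‖x‖ ≤ x.re + x.im := by
  rw [← Real.sqrt_sq (by positivity : 0 ≤ x.re + x.im), Complex.norm_def]
  apply Real.sqrt_le_sqrt
  rw [Complex.normSq_apply]
  nlinarith [mul_nonneg h1 h2]

theorem exists_quadrant {b : ℕ} (hb : 1 ≤ b) {c : ℝ} (hc0 : 0 < c) (hc1 : c ≤ 1) {G : Set (W b)}
    (hvol : ENNReal.ofReal c * volume (Om b 1) ≤ volume (Om b 1 ∩ G)) :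
    ∃ v : ℂ, ‖v‖ = 1 ∧ c / 8 * volume.real (Om b 1) ≤
      volume.real (QS G (Real.sqrt (c / (((b : ℝ) + 1) * (b + 2)))) v) := by
  set r := Real.sqrt (c / (((b : ℝ) + 1) * (b + 2))) with hr
  have hr2 : r ^ 2 = c / (((b : ℝ) + 1) * (b + 2)) := Real.sq_sqrt (by positivity)
  have hr0 : 0 ≤ r := Real.sqrt_nonneg _
  have hbb : (1 : ℝ) ≤ ((b : ℝ) + 1) * (b + 2) := by
    have : (0 : ℝ) ≤ b := Nat.cast_nonneg b
    nlinarith
  have hr1 : r ≤ 1 := by
    rw [hr, Real.sqrt_le_one, div_le_one (by positivity)]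
    linarith
  have hfin : ∀ A : Set (W b), A ⊆ Om b 1 → volume A ≠ ⊤ := fun A hA =>
    ((measure_mono hA).trans_lt (Om_fin b one_pos).lt_top).ne
  -- the central part
  have hcen : volume.real {z : W b | z ∈ Om b 1 ∧ ‖z.fst‖ < r} ≤ c / 2 * volume.real (Om b 1) := by
    have h1 := t7b b 1 r hb one_pos hr0 hr1
    have hv := vb_pos (b := b) one_pos
    have hH0 : 0 ≤ HH b r := by
      rw [← integral_HH]
      refine intervalIntegral.integral_nonneg hr0 fun x hx => ?_
      have : 0 ≤ 1 - x := by linarith [hx.2]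
      have := hx.1
      positivity
    unfold Measure.real at *
    rw [h1, ENNReal.toReal_ofReal (by positivity)]
    have h2 := real_Om b hb
    unfold Measure.real at h2
    rw [h2]
    have h3 := HH_le b hr0 hr1
    rw [hr2] at h3
    calc vb b 1 * (2 * Real.pi * HH b r)
        ≤ vb b 1 * (2 * Real.pi * (c / (((b : ℝ) + 1) * (b + 2)) / 2)) := by gcongr
      _ = _ := by ring
  have hcov : Om b 1 ∩ G ⊆ {z : W b | z ∈ Om b 1 ∧ ‖z.fst‖ < r} ∪ (QS G r 1 ∪
      (QS G r Complex.I ∪ (QS G r (-1) ∪ QS G r (-Complex.I)))) := by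
    rintro z ⟨hz, hzG⟩
    by_cases h1 : ‖z.fst‖ < r
    · exact Or.inl ⟨hz, h1⟩
    · push Not at h1
      right
      have key : ∀ v : ℂ, ‖v‖ = 1 → 0 ≤ (z.fst * v).re → 0 ≤ (z.fst * v).im → z ∈ QS G r v := by
        intro v hv h2 h3
        refine ⟨hz, hzG, h2, h3, ?_⟩
        have h4 := norm_le_re_add_im h2 h3
        rw [norm_mul, hv, mul_one] at h4
        linarith
      rcases quadrant z.fst with h | h | h | h
      · exact Or.inl (key 1 (by simp) h.1 h.2)
      · exact Or.inr (Or.inl (key _ (by simp) h.1 h.2))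
      · exact Or.inr (Or.inr (Or.inl (key _ (by simp) h.1 h.2)))
      · exact Or.inr (Or.inr (Or.inr (key _ (by simp) h.1 h.2)))
  have hQs : ∀ v, QS G r v ⊆ Om b 1 := fun v z hz => hz.1
  have hcr : c * volume.real (Om b 1) ≤ volume.real (Om b 1 ∩ G) := by
    have h1 := ENNReal.toReal_mono (hfin _ inter_subset_left) hvol
    rw [ENNReal.toReal_mul, ENNReal.toReal_ofReal hc0.le] at h1
    exact h1
  have hsum : volume.real (Om b 1 ∩ G) ≤ volume.real {z : W b | z ∈ Om b 1 ∧ ‖z.fst‖ < r} +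
      (volume.real (QS G r 1) + (volume.real (QS G r Complex.I) +
      (volume.real (QS G r (-1)) + volume.real (QS G r (-Complex.I))))) := by
    refine (measureReal_mono hcov (hfin _ ?_)).trans ?_
    · refine union_subset (fun z hz => hz.1) ?_
      exact union_subset (hQs _) (union_subset (hQs _) (union_subset (hQs _) (hQs _)))
    · refine (measureReal_union_le _ _).trans (add_le_add_right ?_ _)
      refine (measureReal_union_le _ _).trans (add_le_add_right ?_ _)
      refine (measureReal_union_le _ _).trans (add_le_add_right ?_ _)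
      exact measureReal_union_le _ _
  by_contra hcon
  push Not at hcon
  have a1 := hcon 1 (by simp)
  have a2 := hcon Complex.I (by simp)
  have a3 := hcon (-1) (by simp)
  have a4 := hcon (-Complex.I) (by simp)
  linarith

end Pool.Agent.N271.Cone
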