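import Pool.Agent.N271.Cone.T6c

set_option autoImplicit false

/-! # T6 -/

namespace Pool.Agent.N271.Cone

open MeasureTheory Set Metric Filter Topology Pool.Agent.TH703.Cone
open scoped ENNReal InnerProductSpace

/-- the functional `z ↦ Re (x v) + Im (x v)` -/
noncomputable def LL {b : ℕ} (v : ℂ) : W b →L[ℝ] ℝ :=
  (Complex.reCLM + Complex.imCLM).comp
    ((ContinuousLinearMap.mul ℝ ℂ v).comp (WithLp.fstL 2 ℝ ℂ (B b)))

theorem LL_apply {b : ℕ} (v : ℂ) (z : W b) : LL v z = (z.fst * v).re + (z.fst * v).im := by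
  have h : LL v z = (v * z.fst).re + (v * z.fst).im := rfl
  rw [h, mul_comm]

theorem convex_QS {b : ℕ} {G : Set (W b)} (hG : Convex ℝ G) (r : ℝ) (v : ℂ) :
    Convex ℝ (QS G r v) := by
  intro z hz w hw s t hs ht hst
  obtain ⟨h1, h2, h3, h4, h5⟩ := hz
  obtain ⟨k1, k2, k3, k4, k5⟩ := hw
  have e : (s • z + t • w).fst * v = s * (z.fst * v) + t * (w.fst * v) := by
    have : (s • z + t • w).fst = s • z.fst + t • w.fst := rfl
    rw [this, Complex.real_smul, Complex.real_smul]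
    ring
  refine ⟨convex_Om b one_pos h1 k1 hs ht hst, hG h2 k2 hs ht hst, ?_, ?_, ?_⟩
  · rw [e, Complex.add_re, Complex.re_ofReal_mul, Complex.re_ofReal_mul]
    positivity
  · rw [e, Complex.add_im, Complex.im_ofReal_mul, Complex.im_ofReal_mul]
    positivity
  · rw [e, Complex.add_re, Complex.re_ofReal_mul, Complex.re_ofReal_mul, Complex.add_im,
      Complex.im_ofReal_mul, Complex.im_ofReal_mul]
    have : r = s * r + t * r := by rw [← add_mul, hst, one_mul]
    rw [this]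
    nlinarith

theorem measurable_QS {b : ℕ} {G : Set (W b)} (hG : MeasurableSet G) (r : ℝ) (v : ℂ) :
    MeasurableSet (QS G r v) := by
  have hc : Continuous fun z : W b => z.fst * v := by fun_prop
  have c1 : Continuous fun z : W b => (z.fst * v).re := Complex.continuous_re.comp hc
  have c2 : Continuous fun z : W b => (z.fst * v).im := Complex.continuous_im.comp hc
  refine (isOpen_Om b 1).measurableSet.inter (hG.inter ?_)
  refine (measurableSet_le measurable_const c1.measurable).inter ?_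
  refine (measurableSet_le measurable_const c2.measurable).inter ?_
  exact measurableSet_le measurable_const (c1.add c2).measurable

theorem t6_one (b : ℕ) (c K r₀ : ℝ) (hc0 : 0 < c) (hc1 : c ≤ 1) (hK : 2 ≤ K)
    (hbK : 100 * K ^ 2 / c ^ 2 ≤ b) (hr₀ : 0 < r₀) (G : Set (W b)) (hGo : IsOpen G)
    (hcone : ∀ z ∈ G, ∀ t : ℝ, 0 < t → t • z ∈ G) (hadd : ∀ z ∈ G, ∀ w ∈ G, z + w ∈ G)
    (hvol : ENNReal.ofReal c * volume (Om b 1) ≤ volume (Om b 1 ∩ G)) :
    ∃ u : ℂ, ‖u‖ = 1 ∧ ∀ x ∈ Wp u (c / (64 * (b + 1) * (b + 2)) / 4) r₀ ((K - 1) / b),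
      ENNReal.ofReal ((c / (64 * (b + 1) * (b + 2)) * r₀ / 2) ^ b * vb b 1) ≤
        volume (fib (Om b 1 ∩ G) x) := by
  have hb400 : (400 : ℝ) ≤ b := by
    refine le_trans ?_ hbK
    rw [le_div_iff₀ (by positivity)]
    nlinarith [mul_le_mul hc1 hc1 hc0.le zero_le_one]
  have hb1 : 1 ≤ b := by
    have : (1 : ℝ) ≤ b := by linarith
    exact_mod_cast this
  have hKb : 100 * K ^ 2 ≤ b * c ^ 2 := by
    rwa [div_le_iff₀ (by positivity)] at hbK
  set δ := c / (64 * ((b : ℝ) + 1) * (b + 2)) with hδ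
  have hδ0 : 0 < δ := by positivity
  have hGc : Convex ℝ G := by
    intro z hz w hw s t hs ht hst
    rcases hs.eq_or_lt with h | h
    · rw [← h, zero_add] at hst
      rw [← h, hst, zero_smul, one_smul, zero_add]; exact hw
    · rcases ht.eq_or_lt with h' | h'
      · rw [← h', add_zero] at hst
        rw [← h', hst, zero_smul, one_smul, add_zero]; exact hz
      · exact hadd _ (hcone z hz s h) _ (hcone w hw t h')
  set r := Real.sqrt (c / (((b : ℝ) + 1) * (b + 2))) with hr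
  have hr2 : r ^ 2 = c / (((b : ℝ) + 1) * (b + 2)) := Real.sq_sqrt (by positivity)
  have hr0 : 0 < r := Real.sqrt_pos.2 (by positivity)
  obtain ⟨v, hv, hSvol⟩ := exists_quadrant hb1 hc0 hc1 hvol
  rw [← hr] at hSvol
  set S := QS G r v with hS
  have hSO : S ⊆ Om b 1 := fun z hz => hz.1
  have hSG : S ⊆ G := fun z hz => hz.2.1
  have hSm : MeasurableSet S := measurable_QS hGo.measurableSet r v
  have hvb := vb_pos (b := b) one_pos
  have hOm := real_Om b hb1
  have hOmpos : 0 < volume.real (Om b 1) := by rw [hOm]; positivity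
  have hpos : 0 < volume.real S := lt_of_lt_of_le (by positivity) hSvol
  have hball := bar_ball hSO hSm hpos hδ0 (by
    refine lt_of_lt_of_le ?_ hSvol
    rw [hOm, hδ]
    have hpi := Real.pi_gt_three
    have h1 : 0 < c * vb b 1 / (((b : ℝ) + 1) * (b + 2)) := by positivity
    calc 32 * (c / (64 * ((b : ℝ) + 1) * (b + 2))) * vb b 1
        = (1 / 2) * (c * vb b 1 / (((b : ℝ) + 1) * (b + 2))) := by field_simp; norm_num
      _ < (Real.pi / 4) * (c * vb b 1 / (((b : ℝ) + 1) * (b + 2))) := by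
          apply mul_lt_mul_of_pos_right _ h1
          linarith
      _ = _ := by field_simp; norm_num) hGo hGc hSG
  have hball1 := bar_ball hSO hSm hpos hδ0 (by
    refine lt_of_lt_of_le ?_ hSvol
    rw [hOm, hδ]
    have hpi := Real.pi_gt_three
    have h1 : 0 < c * vb b 1 / (((b : ℝ) + 1) * (b + 2)) := by positivity
    calc 32 * (c / (64 * ((b : ℝ) + 1) * (b + 2))) * vb b 1
        = (1 / 2) * (c * vb b 1 / (((b : ℝ) + 1) * (b + 2))) := by field_simp; norm_num
      _ < (Real.pi / 4) * (c * vb b 1 / (((b : ℝ) + 1) * (b + 2))) := by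
          apply mul_lt_mul_of_pos_right _ h1
          linarith
      _ = _ := by field_simp; norm_num) (G := ball (0 : W b) 1) isOpen_ball (convex_ball _ _)
      (fun z hz => by rw [mem_ball, dist_zero_right]; exact norm_lt_of_Om (hSO hz))
  set m : W b := bar S with hm
  have hm1 : ‖m‖ < 1 := by
    have := hball1 (mem_ball_self hδ0)
    rwa [mem_ball, dist_zero_right] at this
  set X : ℝ := ‖m.fst‖ with hX
  have hX1 : X < 1 := (norm_fst_le m).trans_lt hm1
  have hXr : r ^ 2 ≤ 2 * X ^ 2 := by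
    have h1 := bar_ge hSO hSm hpos (LL v) (t := r) (fun z hz => by
      rw [LL_apply]; exact hz.2.2.2.2)
    rw [LL_apply] at h1
    have h2 : X = ‖m.fst * v‖ := by rw [norm_mul, hv, mul_one]
    have h3 : X ^ 2 = (m.fst * v).re ^ 2 + (m.fst * v).im ^ 2 := by
      rw [h2, Complex.sq_norm, Complex.normSq_apply]; ring
    rw [h3]
    nlinarith [sq_nonneg ((m.fst * v).re - (m.fst * v).im)]
  have hX0 : 0 < X := by
    by_contra h
    have h1 : X = 0 := le_antisymm (not_lt.1 h) (norm_nonneg _)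
    rw [h1] at hXr
    nlinarith
  have hsnd : c * b * ‖m.snd‖ ^ 2 ≤ 8 := by
    have h1 := bar_snd hSO hpos
    have h2 : (b : ℝ) * (c / 8 * volume.real (Om b 1)) * ‖m.snd‖ ^ 2 ≤ volume.real (Om b 1) := by
      refine le_trans ?_ h1
      gcongr
    have h3 : (c * b * ‖m.snd‖ ^ 2) * volume.real (Om b 1) ≤ 8 * volume.real (Om b 1) := by
      linarith
    exact le_of_mul_le_mul_right h3 hOmpos
  -- numerical estimates
  set β : ℝ := (b : ℝ) with hβ
  have hβ0 : 0 < β := by linarith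
  have hX2 : c / (2 * ((β + 1) * (β + 2))) ≤ X ^ 2 := by
    rw [hr2] at hXr
    rw [div_le_iff₀ (by positivity)] at hXr ⊢
    linarith
  set p : ℝ := ‖m.snd‖ / X with hp
  set q : ℝ := δ / 2 / X with hq
  have hβq : (β + 1) * (β + 2) ≤ 1.01 * β ^ 2 := by nlinarith
  have hp2 : (K * p / β) ^ 2 ≤ 1 / 4 := by
    have h1 : p ^ 2 * X ^ 2 = ‖m.snd‖ ^ 2 := by rw [hp]; field_simp
    have h2 : p ^ 2 * (c / (2 * ((β + 1) * (β + 2)))) ≤ 8 / (c * β) := by
      calc p ^ 2 * (c / (2 * ((β + 1) * (β + 2)))) ≤ p ^ 2 * X ^ 2 := by gcongr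
        _ = ‖m.snd‖ ^ 2 := h1
        _ ≤ 8 / (c * β) := by rw [le_div_iff₀ (by positivity)]; linarith
    have h3 : p ^ 2 * (c ^ 2 * β) ≤ 16 * ((β + 1) * (β + 2)) := by
      rw [mul_div_assoc', div_le_div_iff₀ (by positivity) (by positivity)] at h2
      nlinarith
    have h4 : p ^ 2 * (c ^ 2 * β) ≤ 16.16 * β ^ 2 := by nlinarith
    have h5 : p ^ 2 * c ^ 2 ≤ 16.16 * β := by
      have : (p ^ 2 * c ^ 2) * β ≤ (16.16 * β) * β := by nlinarith
      exact le_of_mul_le_mul_right this hβ0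
    rw [div_pow, div_le_iff₀ (by positivity), mul_pow]
    have h6 : 100 * K ^ 2 * p ^ 2 ≤ β * c ^ 2 * p ^ 2 := by gcongr
    nlinarith
  have hp3 : K * p / β ≤ 1 / 2 := by
    have h0 : 0 ≤ K * p / β := by positivity
    nlinarith
  have hq1 : q ≤ 1 := by
    rw [hq, div_le_one hX0]
    have h1 : (δ / 2) ^ 2 ≤ X ^ 2 := by
      refine le_trans ?_ hX2
      rw [hδ, le_div_iff₀ (by positivity)]
      have h2 : (c / (64 * (β + 1) * (β + 2)) / 2) ^ 2 * (2 * ((β + 1) * (β + 2))) =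
          c * (c / (8192 * ((β + 1) * (β + 2)))) := by field_simp; norm_num
      rw [h2]
      have h3 : c / (8192 * ((β + 1) * (β + 2))) ≤ 1 := by
        rw [div_le_one (by positivity)]
        nlinarith
      nlinarith
    exact (pow_le_pow_iff_left₀ (by positivity) hX0.le two_ne_zero).1 h1
  have hKβ : K / β ≤ 1 / 200 := by
    rw [div_le_iff₀ hβ0]
    have : β * c ^ 2 ≤ β := by
      have : c ^ 2 ≤ 1 := by nlinarith
      nlinarith
    nlinarith
  -- the direction
  refine ⟨(starRingEnd ℂ) m.fst / X, ?_, ?_⟩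
  · rw [norm_div, RCLike.norm_conj, Complex.norm_real, Real.norm_of_nonneg hX0.le, ← hX,
      div_self hX0.ne']
  intro x hx
  obtain ⟨hx1, hx2, hx3, hx4⟩ := hx
  set u : ℂ := (starRingEnd ℂ) m.fst / X with hu
  have hu1 : ‖u‖ = 1 := by
    rw [hu, norm_div, RCLike.norm_conj, Complex.norm_real, Real.norm_of_nonneg hX0.le, ← hX,
      div_self hX0.ne']
  set ρ : ℝ := ‖x‖ with hρ
  have hρ0 : 0 < ρ := by linarith
  set t : ℝ := X / ρ with ht
  have ht0 : 0 < t := by positivity
  set w : ℂ := x * u / ρ with hw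
  have hw1 : ‖w‖ = 1 := by
    rw [hw, norm_div, norm_mul, hu1, mul_one, Complex.norm_real, Real.norm_of_nonneg hρ0.le,
      ← hρ, div_self hρ0.ne']
  have hwre : 0 < w.re := by
    rw [hw, Complex.div_ofReal_re]
    positivity
  have hwim : |w.im| ≤ δ / 4 := by
    rw [hw, Complex.div_ofReal_im, abs_div, abs_of_pos hρ0, div_le_iff₀ hρ0]
    exact hx4
  have hwsq : ‖w - 1‖ ^ 2 ≤ 2 * w.im ^ 2 := by
    have h1 : w.re ^ 2 + w.im ^ 2 = 1 := by
      have : ‖w‖ ^ 2 = 1 := by rw [hw1]; norm_num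
      rw [Complex.sq_norm, Complex.normSq_apply] at this
      linarith
    rw [Complex.sq_norm, Complex.normSq_apply]
    simp only [Complex.sub_re, Complex.one_re, Complex.sub_im, Complex.one_im, sub_zero]
    nlinarith
  have hdist : ‖(t : ℂ) * x - m.fst‖ ^ 2 ≤ δ ^ 2 / 8 := by
    have hmu : m.fst * u = X := by
      rw [hu, mul_div_assoc', Complex.mul_conj, Complex.normSq_eq_norm_sq, ← hX]
      push_cast
      field_simp
    have h1 : ((t : ℂ) * x - m.fst) * u = X * (w - 1) := by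
      rw [sub_mul, hmu, hw, ht]
      push_cast
      have : (ρ : ℂ) ≠ 0 := by exact_mod_cast hρ0.ne'
      field_simp
    have h2 : ‖(t : ℂ) * x - m.fst‖ = X * ‖w - 1‖ := by
      have h3 := congrArg norm h1
      rw [norm_mul, hu1, mul_one, norm_mul, Complex.norm_real, Real.norm_of_nonneg hX0.le] at h3
      exact h3
    rw [h2, mul_pow]
    have h4 : w.im ^ 2 ≤ (δ / 4) ^ 2 := by
      rw [← sq_abs]
      gcongr
    have h5 : X ^ 2 ≤ 1 := by nlinarith
    calc X ^ 2 * ‖w - 1‖ ^ 2 ≤ 1 * (2 * (δ / 4) ^ 2) := by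
          gcongr
          linarith
      _ = _ := by ring
  have hsub : ball (t⁻¹ • m.snd) (t⁻¹ * (δ / 2)) ⊆ fib (Om b 1 ∩ G) x := by
    intro y hy
    rw [mem_ball, dist_eq_norm] at hy
    have hty : ‖t • y - m.snd‖ < δ / 2 := by
      have h1 : t • y - m.snd = t • (y - t⁻¹ • m.snd) := by
        rw [smul_sub, smul_inv_smul₀ ht0.ne']
      rw [h1, norm_smul, Real.norm_of_nonneg ht0.le]
      calc t * ‖y - t⁻¹ • m.snd‖ < t * (t⁻¹ * (δ / 2)) := by gcongr
        _ = δ / 2 := by rw [mul_inv_cancel_left₀ ht0.ne']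
    have hyn : ‖y‖ ≤ (‖m.snd‖ + δ / 2) / t := by
      rw [le_div_iff₀ ht0]
      have h1 : ‖t • y‖ ≤ ‖t • y - m.snd‖ + ‖m.snd‖ := by
        have := norm_add_le (t • y - m.snd) m.snd
        rwa [sub_add_cancel] at this
      rw [norm_smul, Real.norm_of_nonneg ht0.le] at h1
      linarith
    refine ⟨?_, ?_⟩
    · change ‖x‖ + ‖y‖ / 1 < 1
      rw [div_one, ← hρ]
      have h1 : (‖m.snd‖ + δ / 2) / t = ρ * (p + q) := by
        rw [ht, hp, hq]; field_simp
      rw [h1] at hyn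
      have hKρ : ρ ≤ K / β := by
        refine hx2.trans ?_
        gcongr
        linarith
      have hp0 : 0 ≤ p := by positivity
      have hq0 : 0 ≤ q := by positivity
      calc ρ + ‖y‖ ≤ ρ + ρ * (p + q) := by linarith
        _ = ρ * (1 + p + q) := by ring
        _ ≤ K / β * (1 + p + q) := by gcongr
        _ = K / β + K * p / β + K / β * q := by ring
        _ ≤ 1 / 200 + 1 / 2 + 1 / 200 * 1 := by gcongr
        _ < 1 := by norm_num
    · change (WithLp.toLp 2 (x, y) : W b) ∈ G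
      have h1 : (WithLp.toLp 2 ((t : ℂ) * x, t • y) : W b) ∈ G := by
        apply hball
        rw [mem_ball, dist_eq_norm]
        have h2 : ‖(WithLp.toLp 2 ((t : ℂ) * x, t • y) : W b) - m‖ ^ 2 =
            ‖(t : ℂ) * x - m.fst‖ ^ 2 + ‖t • y - m.snd‖ ^ 2 :=
          WithLp.prod_norm_sq_eq_of_L2 _
        have h3 : ‖t • y - m.snd‖ ^ 2 ≤ (δ / 2) ^ 2 := by gcongr
        nlinarith [norm_nonneg ((WithLp.toLp 2 ((t : ℂ) * x, t • y) : W b) - m)]
      have h2 := hcone _ h1 t⁻¹ (by positivity)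
      have h3 : t⁻¹ • (WithLp.toLp 2 ((t : ℂ) * x, t • y) : W b) = WithLp.toLp 2 (x, y) := by
        apply (WithLp.equiv 2 (ℂ × B b)).injective
        ext1
        · change t⁻¹ • ((t : ℂ) * x) = x
          rw [Complex.real_smul, ← mul_assoc]
          have : ((t⁻¹ : ℝ) : ℂ) * t = 1 := by
            rw [← Complex.ofReal_mul, inv_mul_cancel₀ ht0.ne']; simp
          rw [this, one_mul]
        · change t⁻¹ • (t • y) = y
          rw [inv_smul_smul₀ ht0.ne']
      rwa [h3] at h2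
  refine le_trans ?_ (measure_mono hsub)
  rw [Measure.addHaar_ball_center]
  have e : t⁻¹ * (δ / 2) = (t⁻¹ * (δ / 2)) * 1 := by ring
  rw [e, Measure.addHaar_ball_mul_of_pos volume (0 : B b) (by positivity) 1,
    finrank_euclideanSpace_fin, ← ofReal_vb, ← ENNReal.ofReal_mul (by positivity)]
  apply ENNReal.ofReal_le_ofReal
  have h1 : δ * r₀ / 2 ≤ t⁻¹ * (δ / 2) := by
    have h2 : r₀ ≤ t⁻¹ := by
      rw [ht, inv_div, le_div_iff₀ hX0]
      nlinarith
    calc δ * r₀ / 2 = r₀ * (δ / 2) := by ring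
      _ ≤ _ := by gcongr
  gcongr

end Pool.Agent.N271.Cone
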