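import Pool.Agent.N271.Cone.MainW

set_option autoImplicit false

/-! # Transfer to Euclidean space -/

namespace Pool.Agent.N271.Cone

open MeasureTheory Set Metric Filter Topology Pool.Agent.TH703.Cone
open scoped ENNReal

section

variable {E F : Type*} [NormedAddCommGroup E] [InnerProductSpace ℝ E]
  [NormedAddCommGroup F] [InnerProductSpace ℝ F]

theorem dv_conj (T : E ≃ₗᵢ[ℝ] F) (Φ : F → F) (x : E) :
    dv (fun y => T.symm (Φ (T y))) x = dv Φ (T x) := by
  unfold dv
  have h1 : fderiv ℝ (fun y => T.symm (Φ (T y))) x =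
      (T.symm.toContinuousLinearEquiv : F →L[ℝ] E).comp
        ((fderiv ℝ Φ (T x)).comp (T.toContinuousLinearEquiv : E →L[ℝ] F)) := by
    have e1 := ContinuousLinearEquiv.comp_fderiv T.symm.toContinuousLinearEquiv
      (f := fun y => Φ (T y)) (x := x)
    have e2 := ContinuousLinearEquiv.comp_right_fderiv T.toContinuousLinearEquiv
      (f := Φ) (x := x)
    have e3 : fderiv ℝ (fun y => T.symm (Φ (T y))) x =
      fderiv ℝ (T.symm.toContinuousLinearEquiv ∘ fun y => Φ (T y)) x := rfl
    rw [e3, e1]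
    congr 1
  rw [h1]
  have h2 := LinearMap.trace_conj' (R := ℝ) (fderiv ℝ Φ (T x)).toLinearMap
    T.symm.toLinearEquiv
  rw [← h2]
  congr 1

theorem tst_conj (T : E ≃ₗᵢ[ℝ] F) {Φ : F → F} {Ω : Set F} (h : Tst Ω Φ) :
    Tst (T ⁻¹' Ω) (fun y => T.symm (Φ (T y))) := by
  have hts : tsupport (fun y => T.symm (Φ (T y))) ⊆ T ⁻¹' (tsupport Φ) := by
    refine closure_minimal ?_ ((isClosed_tsupport Φ).preimage T.continuous)
    intro y hy
    apply subset_tsupport
    intro h0
    apply hy
    change T.symm (Φ (T y)) = 0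
    rw [h0, map_zero]
  constructor
  · exact T.symm.contDiff.comp (h.c1.comp T.contDiff)
  · have h1 : IsCompact (T ⁻¹' (tsupport Φ)) :=
      T.toHomeomorph.isCompact_preimage.2 h.cs
    exact h1.of_isClosed_subset (isClosed_tsupport _) hts
  · exact hts.trans (preimage_mono h.sub)
  · intro x
    rw [T.symm.norm_map]
    exact h.le _

end

end Pool.Agent.N271.Cone
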