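import Pool.Agent.N271.Cone.Fub

set_option autoImplicit false

/-! # Volumes of the cylinders in `Om b ε` -/

namespace Pool.Agent.N271.Cone

open MeasureTheory Set Metric Pool.Agent.TH703.Cone
open scoped ENNReal

/-- the antiderivative of `ρ (1 - ρ)^b` -/
noncomputable def HH (b : ℕ) (r : ℝ) : ℝ :=
  (1 - (1 - r) ^ (b + 1) * (1 + (b + 1) * r)) / ((b + 1) * (b + 2))

theorem hasDerivAt_HH (b : ℕ) (r : ℝ) : HasDerivAt (HH b) (r * (1 - r) ^ b) r := by
  have h1 : HasDerivAt (fun r : ℝ => (1 - r) ^ (b + 1)) (((b + 1 : ℕ) : ℝ) * (1 - r) ^ b * (-1)) r := by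
    have := ((hasDerivAt_id' r).const_sub 1).fun_pow (b + 1)
    simpa using this
  have h2 : HasDerivAt (fun r : ℝ => 1 + ((b : ℝ) + 1) * r) ((b : ℝ) + 1) r := by
    have := ((hasDerivAt_id r).const_mul ((b : ℝ) + 1)).const_add 1
    simpa using this
  have h3 := ((h1.mul h2).const_sub 1).div_const (((b : ℝ) + 1) * (b + 2))
  refine h3.congr_deriv ?_
  have hb : (0 : ℝ) < (b : ℝ) + 1 := by positivity
  have hb2 : (0 : ℝ) < (b : ℝ) + 2 := by positivity
  rw [div_eq_iff (by positivity)]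
  push_cast
  ring

theorem HH_zero (b : ℕ) : HH b 0 = 0 := by
  simp [HH]

theorem HH_one (b : ℕ) : HH b 1 = 1 / ((b + 1) * (b + 2)) := by
  simp [HH]

theorem integral_HH (b : ℕ) (r : ℝ) : ∫ ρ in (0 : ℝ)..r, ρ * (1 - ρ) ^ b = HH b r := by
  rw [intervalIntegral.integral_eq_sub_of_hasDerivAt (fun x _ => hasDerivAt_HH b x), HH_zero,
    sub_zero]
  apply Continuous.intervalIntegrable
  fun_prop

theorem lint_HH (b : ℕ) {r : ℝ} (hr0 : 0 ≤ r) (hr1 : r ≤ 1) :
    ∫⁻ ρ in Ioi (0 : ℝ), ENNReal.ofReal ρ * (Iio r).indicator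
      (fun ρ => ENNReal.ofReal ((1 - ρ) ^ b)) ρ = ENNReal.ofReal (HH b r) := by
  rw [← integral_HH, intervalIntegral.integral_of_le hr0,
    ofReal_integral_eq_lintegral_ofReal]
  · rw [← lintegral_indicator measurableSet_Ioi, ← lintegral_indicator measurableSet_Ioc]
    rw [lintegral_congr_ae]
    have hne : ∀ᵐ ρ : ℝ, ρ ≠ r := by
      have : (volume : Measure ℝ) {r} = 0 := by simp
      rw [ae_iff]
      convert this using 2
      ext x
      simp
    filter_upwards [hne] with ρ hρ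
    by_cases h0 : 0 < ρ
    · rw [indicator_of_mem (show ρ ∈ Ioi (0 : ℝ) from h0)]
      by_cases h1 : ρ < r
      · rw [indicator_of_mem (show ρ ∈ Iio r from h1),
          indicator_of_mem (show ρ ∈ Ioc 0 r from ⟨h0, h1.le⟩), ENNReal.ofReal_mul h0.le]
      · rw [indicator_of_notMem (show ρ ∉ Iio r from h1), mul_zero,
          indicator_of_notMem]
        intro h2
        exact h1 (lt_of_le_of_ne h2.2 hρ)
    · rw [indicator_of_notMem (show ρ ∉ Ioi (0 : ℝ) from h0), indicator_of_notMem]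
      intro h2
      exact h0 h2.1
  · rw [← IntegrableOn, ← intervalIntegrable_iff_integrableOn_Ioc_of_le hr0]
    apply Continuous.intervalIntegrable
    fun_prop
  · filter_upwards [ae_restrict_mem measurableSet_Ioc] with ρ hρ
    have h1 : 0 ≤ 1 - ρ := by linarith [hρ.2]
    have h2 : 0 ≤ ρ := hρ.1.le
    positivity

/-- **T7b** -/
theorem t7b (b : ℕ) (ε r : ℝ) (hb : 1 ≤ b) (hε : 0 < ε) (hr0 : 0 ≤ r) (hr1 : r ≤ 1) :
    volume {z | z ∈ Om b ε ∧ ‖z.fst‖ < r} = ENNReal.ofReal (vb b ε * (2 * Real.pi * HH b r)) := by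
  have hm : MeasurableSet {z : W b | ‖z.fst‖ < r} := by
    have : Continuous fun z : W b => ‖z.fst‖ := by fun_prop
    exact (isOpen_lt this continuous_const).measurableSet
  have h1 : volume {z | z ∈ Om b ε ∧ ‖z.fst‖ < r} =
      ∫⁻ z in Om b ε, (ball (0 : ℂ) r).indicator (fun _ => 1) z.fst := by
    have h2 : ∀ z : W b, (ball (0 : ℂ) r).indicator (fun _ => (1 : ℝ≥0∞)) z.fst =
        {z : W b | ‖z.fst‖ < r}.indicator (fun _ => 1) z := by
      intro z
      by_cases hz : ‖z.fst‖ < r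
      · rw [indicator_of_mem (show z ∈ {z : W b | ‖z.fst‖ < r} from hz), indicator_of_mem]
        rwa [mem_ball, dist_zero_right]
      · rw [indicator_of_notMem (show z ∉ {z : W b | ‖z.fst‖ < r} from hz), indicator_of_notMem]
        rwa [mem_ball, dist_zero_right]
    simp_rw [h2]
    rw [lintegral_indicator hm]
    simp only [lintegral_const, one_mul, Measure.restrict_apply MeasurableSet.univ, univ_inter]
    rw [Measure.restrict_apply hm, inter_comm]
    rfl
  rw [h1, t7a b ε hb hε _ (measurable_const.indicator measurableSet_ball),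
    ← lintegral_indicator measurableSet_ball]
  have h3 : ∀ x : ℂ, (ball (0 : ℂ) 1).indicator (fun x => (ball (0 : ℂ) r).indicator
      (fun _ => (1 : ℝ≥0∞)) x * ENNReal.ofReal ((1 - ‖x‖) ^ b)) x =
      (fun ρ : ℝ => (Iio r).indicator (fun ρ => ENNReal.ofReal ((1 - ρ) ^ b)) ρ) ‖x‖ := by
    intro x
    by_cases hx : ‖x‖ < r
    · simp only
      rw [indicator_of_mem (show ‖x‖ ∈ Iio r from hx), indicator_of_mem, indicator_of_mem, one_mul]
      · rwa [mem_ball, dist_zero_right]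
      · rw [mem_ball, dist_zero_right]; linarith
    · simp only
      rw [indicator_of_notMem (show ‖x‖ ∉ Iio r from hx)]
      by_cases hx1 : x ∈ ball (0 : ℂ) 1
      · rw [indicator_of_mem hx1, indicator_of_notMem, zero_mul]
        rwa [mem_ball, dist_zero_right]
      · rw [indicator_of_notMem hx1]
  simp_rw [h3]
  rw [lint_radial, lint_HH b hr0 hr1, ← ENNReal.ofReal_mul (by positivity),
    ← ENNReal.ofReal_mul (vb_pos hε).le]
  refine Measurable.indicator ?_ measurableSet_Iio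
  fun_prop

theorem t7b' : S_T7b := by
  intro b ε r hb hε h0 h1
  rw [t7b b ε r hb hε h0 h1]
  rfl

theorem vol_Om (b : ℕ) (ε : ℝ) (hb : 1 ≤ b) (hε : 0 < ε) :
    volume (Om b ε) = ENNReal.ofReal (vb b ε * (2 * Real.pi * HH b 1)) := by
  rw [← t7b b ε 1 hb hε zero_le_one le_rfl]
  congr 1
  ext z
  simp only [mem_ofPred_eq]
  constructor
  · intro h
    refine ⟨h, ?_⟩
    have h2 : ‖z.fst‖ + ‖z.snd‖ / ε < 1 := h
    have : 0 ≤ ‖z.snd‖ / ε := by positivity
    linarith
  · exact fun h => h.1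

end Pool.Agent.N271.Cone
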